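import Mathlib

open Complex MeasureTheory Metric Set Real Filter Topology

namespace Pool.Agent.Helper64.SP

/-- The unit ball of `ℂ²`, in coordinates of `ℂ × ℂ`. -/
def BB : Set (ℂ × ℂ) := {p | ‖p.1‖ ^ 2 + ‖p.2‖ ^ 2 < 1}

lemma isOpen_BB : IsOpen BB := by
  unfold BB
  exact isOpen_lt (by fun_prop) continuous_const

lemma circle_mem_BB {z : ℂ} {r : ℝ} (h : ‖z‖ ^ 2 + r ^ 2 < 1) (θ : ℝ) :
    (z, circleMap 0 r θ) ∈ BB := by
  unfold BB
  simpa [norm_circleMap_zero, sq_abs] using h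

lemma continuous_circle {F : ℂ × ℂ → ℂ} (hF : DifferentiableOn ℂ F BB) {z : ℂ} {r : ℝ}
    (h : ‖z‖ ^ 2 + r ^ 2 < 1) : Continuous fun θ : ℝ => F (z, circleMap 0 r θ) := by
  have h1 : Continuous fun θ : ℝ => (z, circleMap 0 r θ) := by fun_prop
  exact hF.continuousOn.comp_continuous h1 (fun θ => circle_mem_BB h θ)

lemma continuous_pow {r : ℝ} (hr : 0 < r) (m : ℤ) :
    Continuous fun θ : ℝ => (circleMap 0 r θ) ^ m := by
  refine Continuous.zpow₀ (continuous_circleMap 0 r) m (fun θ => Or.inl ?_)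
  exact circleMap_ne_center hr.ne'

/-- Weighted circle average in the second variable. -/
noncomputable def cav (F : ℂ × ℂ → ℂ) (r : ℝ) (m : ℤ) (z : ℂ) : ℂ :=
  circleAverage (fun ζ => F (z, ζ) * ζ ^ (-m)) 0 r

lemma differentiableAt_cav {F : ℂ × ℂ → ℂ} (hF : DifferentiableOn ℂ F BB) {r : ℝ} (hr : 0 < r)
    (m : ℤ) {z₀ : ℂ} (h : ‖z₀‖ ^ 2 + r ^ 2 < 1) : DifferentiableAt ℂ (cav F r m) z₀ := by
  -- a closed ball of admissible centres
  have hopen : IsOpen {z : ℂ | ‖z‖ ^ 2 + r ^ 2 < 1} := isOpen_lt (by fun_prop) continuous_const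
  obtain ⟨ε, hε, hball⟩ := Metric.isOpen_iff.1 hopen z₀ h
  set δ : ℝ := ε / 3 with hδ
  have hδ0 : 0 < δ := by positivity
  have hsub : ∀ z ∈ closedBall z₀ (2 * δ), ‖z‖ ^ 2 + r ^ 2 < 1 := by
    intro z hz
    apply hball
    rw [mem_closedBall] at hz
    rw [mem_ball]
    linarith
  -- bound on the compact set
  have hcomp : IsCompact (closedBall z₀ (2 * δ) ×ˢ sphere (0 : ℂ) r) :=
    (isCompact_closedBall _ _).prod (isCompact_sphere _ _)
  have hcont : ContinuousOn F (closedBall z₀ (2 * δ) ×ˢ sphere (0 : ℂ) r) := by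
    refine hF.continuousOn.mono ?_
    rintro ⟨z, ζ⟩ ⟨hz, hζ⟩
    have h1 := hsub z hz
    have h2 : ‖ζ‖ = r := by simpa using hζ
    show ‖z‖ ^ 2 + ‖ζ‖ ^ 2 < 1
    rw [h2]; exact h1
  obtain ⟨M, hM⟩ := hcomp.exists_bound_of_continuousOn hcont
  have hMb : ∀ z ∈ closedBall z₀ (2 * δ), ∀ θ : ℝ, ‖F (z, circleMap 0 r θ)‖ ≤ M := by
    intro z hz θ
    apply hM
    refine ⟨hz, ?_⟩
    simpa using (norm_circleMap_zero r θ).trans (abs_of_pos hr)
  set k : ℝ → ℂ := fun θ => (circleMap 0 r θ) ^ (-m) with hk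
  have hkc : Continuous k := continuous_pow hr (-m)
  have hkn : ∀ θ, ‖k θ‖ = r ^ (-m) := by
    intro θ
    simp [hk, norm_circleMap_zero, abs_of_pos hr]
  set f : ℂ → ℝ → ℂ := fun z θ => F (z, circleMap 0 r θ) * k θ with hf
  set f' : ℂ → ℝ → ℂ := fun z θ => deriv (fun w => F (w, circleMap 0 r θ)) z * k θ with hf'
  have hdiff : ∀ z ∈ closedBall z₀ (2 * δ), ∀ θ : ℝ,
      DifferentiableAt ℂ (fun w => F (w, circleMap 0 r θ)) z := by
    intro z hz θ
    have h1 : DifferentiableAt ℂ F (z, circleMap 0 r θ) :=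
      hF.differentiableAt (isOpen_BB.mem_nhds (circle_mem_BB (hsub z hz) θ))
    have h2 : DifferentiableAt ℂ (fun w : ℂ => (w, circleMap 0 r θ)) z := by fun_prop
    exact DifferentiableAt.comp z h1 h2
  have key := intervalIntegral.hasDerivAt_integral_of_dominated_loc_of_deriv_le
    (𝕜 := ℂ) (μ := volume) (a := 0) (b := 2 * π) (F := f) (F' := f') (x₀ := z₀)
    (s := ball z₀ δ) (bound := fun _ => M / δ * r ^ (-m)) (ball_mem_nhds _ hδ0)
    ?_ ?_ ?_ ?_ ?_ ?_
  · have h1 := key.2.differentiableAt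
    have h2 : cav F r m = fun z => (2 * π : ℝ)⁻¹ • ∫ θ in (0 : ℝ)..2 * π, f z θ := by
      funext z
      rfl
    rw [h2]
    exact h1.const_smul ((2 * π : ℝ)⁻¹)
  · filter_upwards [ball_mem_nhds z₀ hδ0] with z hz
    have hz' : z ∈ closedBall z₀ (2 * δ) := by
      rw [mem_ball] at hz; rw [mem_closedBall]; linarith
    exact ((continuous_circle hF (hsub z hz')).mul hkc).aestronglyMeasurable
  · have hz' : z₀ ∈ closedBall z₀ (2 * δ) := mem_closedBall_self (by positivity)
    exact ((continuous_circle hF (hsub z₀ hz')).mul hkc).intervalIntegrable _ _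
  · -- measurability of the derivative
    have hlim : ∀ θ : ℝ, Tendsto (fun n : ℕ =>
        ((δ / (n + 1) : ℝ) : ℂ)⁻¹ •
          (F (z₀ + ((δ / (n + 1) : ℝ) : ℂ), circleMap 0 r θ) - F (z₀, circleMap 0 r θ)) * k θ)
        atTop (𝓝 (f' z₀ θ)) := by
      intro θ
      have hz' : z₀ ∈ closedBall z₀ (2 * δ) := mem_closedBall_self (by positivity)
      have h1 := (hdiff z₀ hz' θ).hasDerivAt
      rw [hasDerivAt_iff_tendsto_slope_zero] at h1
      have h2 : Tendsto (fun n : ℕ => ((δ / (n + 1) : ℝ) : ℂ)) atTop (𝓝[≠] 0) := by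
        rw [tendsto_nhdsWithin_iff]
        constructor
        · have h3 : Tendsto (fun n : ℕ => (δ / (n + 1) : ℝ)) atTop (𝓝 0) :=
            tendsto_const_div_atTop_nhds_zero_nat δ |>.comp (tendsto_add_atTop_nat 1) |>.congr
              (fun n => by simp)
          have h4 := (Complex.continuous_ofReal.tendsto 0).comp h3
          rw [Complex.ofReal_zero] at h4
          exact h4
        · filter_upwards with n
          have h5 : (δ / (n + 1) : ℝ) ≠ 0 := by positivity
          exact Complex.ofReal_ne_zero.2 h5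
      exact (h1.comp h2).mul_const _
    refine aestronglyMeasurable_of_tendsto_ae (u := atTop) (f := fun (n : ℕ) (θ : ℝ) =>
        ((δ / (n + 1) : ℝ) : ℂ)⁻¹ •
          (F (z₀ + ((δ / (n + 1) : ℝ) : ℂ), circleMap 0 r θ) - F (z₀, circleMap 0 r θ)) * k θ)
        (fun n => ?_) (Eventually.of_forall hlim)
    have hz1 : z₀ + ((δ / (n + 1) : ℝ) : ℂ) ∈ closedBall z₀ (2 * δ) := by
      rw [mem_closedBall, dist_eq_norm]
      have : z₀ + ((δ / (n + 1) : ℝ) : ℂ) - z₀ = ((δ / (n + 1) : ℝ) : ℂ) := by ring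
      rw [this, Complex.norm_real, Real.norm_of_nonneg (by positivity)]
      have : δ / (n + 1) ≤ δ := div_le_self hδ0.le (by linarith [Nat.cast_nonneg (α := ℝ) n])
      linarith
    have hz2 : z₀ ∈ closedBall z₀ (2 * δ) := mem_closedBall_self (by positivity)
    have c1 := continuous_circle hF (hsub _ hz1)
    have c2 := continuous_circle hF (hsub _ hz2)
    have c3 : Continuous fun θ : ℝ => ((δ / (n + 1) : ℝ) : ℂ)⁻¹ •
          (F (z₀ + ((δ / (n + 1) : ℝ) : ℂ), circleMap 0 r θ) - F (z₀, circleMap 0 r θ)) * k θ :=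
      ((c1.sub c2).const_smul (((δ / (n + 1) : ℝ) : ℂ)⁻¹)).mul hkc
    exact c3.aestronglyMeasurable
  · refine Eventually.of_forall (fun θ _ z hz => ?_)
    have hb : ‖deriv (fun w => F (w, circleMap 0 r θ)) z‖ ≤ M / δ := by
      refine Complex.norm_deriv_le_of_forall_mem_sphere_norm_le hδ0 ?_ ?_
      · refine DifferentiableOn.diffContOnCl ?_
        intro w hw
        refine (hdiff w ?_ θ).differentiableWithinAt
        have := closure_ball_subset_closedBall hw
        rw [mem_closedBall] at this ⊢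
        rw [mem_ball] at hz
        calc dist w z₀ ≤ dist w z + dist z z₀ := dist_triangle _ _ _
          _ ≤ 2 * δ := by linarith
      · intro w hw
        refine hMb w ?_ θ
        rw [mem_sphere] at hw
        rw [mem_ball] at hz
        rw [mem_closedBall]
        calc dist w z₀ ≤ dist w z + dist z z₀ := dist_triangle _ _ _
          _ ≤ 2 * δ := by linarith
    simp only [hf']
    rw [norm_mul, hkn]
    exact mul_le_mul_of_nonneg_right hb (by positivity)
  · exact intervalIntegrable_const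
  · refine Eventually.of_forall (fun θ _ z hz => ?_)
    have hz' : z ∈ closedBall z₀ (2 * δ) := by
      rw [mem_ball] at hz; rw [mem_closedBall]; linarith
    exact ((hdiff z hz' θ).hasDerivAt).mul_const _

end Pool.Agent.Helper64.SP
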