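import Pool.Agent.Helper64.SP.Key

open Complex MeasureTheory Metric Set Real Filter Topology ComplexConjugate

namespace Pool.Agent.Helper64.SP

lemma le_at_end {f g : ℝ → ℝ} {R : ℝ} (hR : 0 < R) (hf : ContinuousAt f R)
    (hg : ContinuousAt g R) (h : ∀ s ∈ Ioo (0 : ℝ) R, f s ≤ g s) : f R ≤ g R := by
  have h1 : Tendsto f (𝓝[<] R) (𝓝 (f R)) := hf.tendsto.mono_left nhdsWithin_le_nhds
  have h2 : Tendsto g (𝓝[<] R) (𝓝 (g R)) := hg.tendsto.mono_left nhdsWithin_le_nhds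
  refine le_of_tendsto_of_tendsto h1 h2 ?_
  filter_upwards [Ioo_mem_nhdsLT hR] with s hs
  exact h s hs

variable {F G : ℂ × ℂ → ℂ} {q : ℂ} {C : ℝ}

lemma sphere_bound (h : ∀ p ∈ BB, |(conj p.1 * F p + conj p.2 * G p).re| ≤ C * UU q p.1 ‖p.2‖)
    {z : ℂ} {r : ℝ} (hr2 : r < rr z) (hz : z ∈ ball (0 : ℂ) 1) (hr : 0 < r) :
    ∀ ζ ∈ sphere (0 : ℂ) r, |(conj z * F (z, ζ) + conj ζ * G (z, ζ)).re| ≤ C * UU q z r := by
  intro ζ hζ
  have h1 : ‖ζ‖ = r := by simpa using hζ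
  have h2 : (z, ζ) ∈ BB := by
    show ‖z‖ ^ 2 + ‖ζ‖ ^ 2 < 1
    have := rr_sq hz
    rw [h1]
    nlinarith
  have h3 := h _ h2
  simpa [h1] using h3

lemma modes_end (hF : DifferentiableOn ℂ F BB) (hG : DifferentiableOn ℂ G BB)
    (hq : ‖q‖ = 1)
    (h : ∀ p ∈ BB, |(conj p.1 * F p + conj p.2 * G p).re| ≤ C * UU q p.1 ‖p.2‖)
    (hb : ∀ z ∈ ball (0 : ℂ) 1, G (z, 0) = 0) (m : ℕ) (hm : 1 ≤ m) {z : ℂ}
    (hz : z ∈ ball (0 : ℂ) 1) :
    ‖conj z * cm F m z + (1 - z * conj z) * cm G (m + 1) z‖ ≤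
      2 * C * (1 - ‖z‖ ^ 2) / (rr z) ^ m * RR q z := by
  have hp := rr_pos hz
  have hs := rr_sq hz
  have key : ∀ r ∈ Ioo (0 : ℝ) (rr z),
      (fun r : ℝ => ‖conj z * cm F m z + (r : ℂ) ^ 2 * cm G (m + 1) z‖) r ≤
      (fun r : ℝ => 2 * (C * UU q z r) / r ^ m) r := by
    intro r hr
    have h1 := mode_bound (slice_diff' hF hz) (slice_diff' hG hz) hr.1 hr.2
      (sphere_bound h hr.2 hz hr.1) m hm
    simp only
    have h2 : (if m = 1 then conj (G (z, 0)) else 0) = 0 := by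
      rw [hb z hz]; simp
    rw [h2, add_zero] at h1
    exact h1
  have hc1 : ContinuousAt (fun r : ℝ => ‖conj z * cm F m z + (r : ℂ) ^ 2 * cm G (m + 1) z‖)
      (rr z) := by fun_prop
  have hc2 : ContinuousAt (fun r : ℝ => 2 * (C * UU q z r) / r ^ m) (rr z) := by
    apply ContinuousAt.div
    · unfold UU; fun_prop
    · fun_prop
    · positivity
  have h3 := le_at_end hp hc1 hc2 key
  have h4 : ((rr z : ℝ) : ℂ) ^ 2 = 1 - z * conj z := by
    rw [← Complex.ofReal_pow, hs, Complex.mul_conj, Complex.normSq_eq_norm_sq]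
    push_cast; rfl
  rw [h4, perfect_square hq hz hs] at h3
  calc _ ≤ _ := h3
    _ = _ := by ring

lemma mode_zero_end (hF : DifferentiableOn ℂ F BB) (hG : DifferentiableOn ℂ G BB)
    (hq : ‖q‖ = 1)
    (h : ∀ p ∈ BB, |(conj p.1 * F p + conj p.2 * G p).re| ≤ C * UU q p.1 ‖p.2‖)
    (ha : ∀ z ∈ ball (0 : ℂ) 1, F (z, 0) = 0) {z : ℂ}
    (hz : z ∈ ball (0 : ℂ) 1) :
    |(cm G 1 z).re| ≤ C * RR q z := by
  have hp := rr_pos hz
  have hs := rr_sq hz
  have key : ∀ r ∈ Ioo (0 : ℝ) (rr z),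
      (fun r : ℝ => r ^ 2 * |(cm G 1 z).re|) r ≤ (fun r : ℝ => (C * UU q z r)) r := by
    intro r hr
    have h1 := mode_zero (slice_diff' hF hz) (slice_diff' hG hz) hr.1 hr.2
      (sphere_bound h hr.2 hz hr.1)
    simp only
    rw [ha z hz, mul_zero, zero_add, ← Complex.ofReal_pow, Complex.re_ofReal_mul, abs_mul,
      abs_of_nonneg (sq_nonneg r)] at h1
    exact h1
  have hc1 : ContinuousAt (fun r : ℝ => r ^ 2 * |(cm G 1 z).re|) (rr z) := by fun_prop
  have hc2 : ContinuousAt (fun r : ℝ => (C * UU q z r)) (rr z) := by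
    unfold UU; fun_prop
  have h3 := le_at_end hp hc1 hc2 key
  rw [perfect_square hq hz hs, hs] at h3
  have h4 : 0 < 1 - ‖z‖ ^ 2 := by rw [← hs]; positivity
  have h5 : (1 - ‖z‖ ^ 2) * |(cm G 1 z).re| ≤ (1 - ‖z‖ ^ 2) * (C * RR q z) := by
    linarith
  exact le_of_mul_le_mul_left h5 h4

lemma eventually_mul_bound {f : ℂ → ℝ} {z₀ : ℂ} (hf : ContinuousAt f z₀) (hz : z₀ ∈ Gam q) :
    ∃ K : ℝ, ∀ᶠ z in 𝓝 z₀, f z * RR q z ≤ K * ‖z - z₀‖ ^ 2 := by
  obtain ⟨K, hK⟩ := RR_bigO hz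
  refine ⟨(|f z₀| + 1) * K, ?_⟩
  have h1 : ∀ᶠ z in 𝓝 z₀, |f z| < |f z₀| + 1 := by
    have h2 : ContinuousAt (fun z => |f z|) z₀ := hf.abs
    exact h2.eventually_lt continuousAt_const (by linarith)
  filter_upwards [hK, h1] with z h2 h3
  have h4 := RR_nonneg q z
  calc f z * RR q z ≤ |f z| * RR q z := by gcongr; exact le_abs_self _
    _ ≤ (|f z₀| + 1) * RR q z := by gcongr
    _ ≤ (|f z₀| + 1) * (K * ‖z - z₀‖ ^ 2) := by gcongr
    _ = _ := by ring

lemma rr_continuous : Continuous rr := by unfold rr; fun_prop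

theorem key (hF : DifferentiableOn ℂ F BB) (hG : DifferentiableOn ℂ G BB)
    (hq : ‖q‖ = 1) (him : 0 < q.im) (hC : 0 ≤ C)
    (h : ∀ p ∈ BB, |(conj p.1 * F p + conj p.2 * G p).re| ≤ C * UU q p.1 ‖p.2‖)
    (hF0 : F (0, 0) = 0) (hG0 : G (0, 0) = 0)
    (hF1 : deriv (fun z => F (z, 0)) 0 = 0) (hF2 : deriv (fun w => F (0, w)) 0 = 0)
    (hG1 : deriv (fun z => G (z, 0)) 0 = 0) (hG2 : deriv (fun w => G (0, w)) 0 = 0) :
    ∀ p ∈ BB, F p = 0 ∧ G p = 0 := by
  have h00 : (0 : ℂ) ∈ ball (0 : ℂ) 1 := by simp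
  -- the mode-zero coefficient of `F`
  have ha : ∀ z ∈ ball (0 : ℂ) 1, F (z, 0) = 0 := by
    have hd : DifferentiableOn ℂ (fun z => F (z, 0)) (ball 0 1) :=
      (cm_diff hF 0).congr (fun z _ => (cm_zero F z).symm)
    apply slice_zero hd hF0 hF1 hC
    intro z hz
    have hz1 : ‖z‖ < 1 := by simpa using hz
    have h1 : ((z, 0) : ℂ × ℂ) ∈ BB := by
      show ‖z‖ ^ 2 + ‖(0 : ℂ)‖ ^ 2 < 1
      rw [norm_zero]; nlinarith [norm_nonneg z]
    have h2 := h _ h1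
    simp only [map_zero, zero_mul, add_zero, norm_zero] at h2
    unfold UU at h2
    have h3 := pp_re hz
    calc |(conj z * F (z, 0)).re| * ‖1 + z‖ ^ 2
        ≤ (C * (‖z‖ ^ 2 * (pp z).re + 0 ^ 2 * (cc q z).re)) * ‖1 + z‖ ^ 2 := by gcongr
      _ = C * (‖z‖ ^ 2 * ((pp z).re * ‖1 + z‖ ^ 2)) := by ring
      _ = C * (‖z‖ ^ 2 * (1 - ‖z‖ ^ 2)) := by rw [h3]
  -- the mode-zero coefficient of `G`
  have hb : ∀ z ∈ ball (0 : ℂ) 1, G (z, 0) = 0 := by
    have hd : DifferentiableOn ℂ (fun z => G (z, 0)) (ball 0 1) :=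
      (cm_diff hG 0).congr (fun z _ => (cm_zero G z).symm)
    apply mode_one_zero (a := cm F 1) (c2 := cm G 2) (C := 2 * C) (cm_diff hF 1) hd
      (cm_diff hG 2) _ hG0 hG1 (by positivity)
    · intro z hz r hr hlt
      have hr2 : r < rr z := by
        have h4 := rr_sq hz
        have h5 := rr_pos hz
        nlinarith
      have h1 := mode_bound (slice_diff' hF hz) (slice_diff' hG hz) hr hr2
        (sphere_bound h hr2 hz hr) 1 le_rfl
      simp only [if_true, pow_one] at h1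
      have h2 := UU_le hq hz r
      have h3 : ‖conj z * cm F 1 z + (r : ℂ) ^ 2 * cm G 2 z + conj (G (z, 0))‖ ≤
          2 * (C * UU q z r) / r := h1
      calc _ ≤ (2 * (C * UU q z r) / r) * ‖1 + z‖ ^ 2 := by gcongr
        _ = 2 * C * (UU q z r * ‖1 + z‖ ^ 2) / r := by ring
        _ ≤ 2 * C * ((1 - ‖z‖ ^ 2) + 12 * r ^ 2) / r := by gcongr
    · unfold cm
      rw [co_one]; exact hF2
  -- the first coefficient of `G`
  have hb1 : ∀ z ∈ ball (0 : ℂ) 1, cm G 1 z = 0 := by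
    have hd := cm_diff hG 1
    have hdd : DifferentiableOn ℂ (deriv (cm G 1)) (ball 0 1) := hd.deriv isOpen_ball
    have h1 : ∀ z ∈ Gam q, deriv (cm G 1) z = 0 := by
      intro z₀ hz₀
      obtain ⟨K, hK⟩ := eventually_mul_bound (q := q) (f := fun _ => C)
        (continuousAt_const (x := z₀)) hz₀
      refine second_order_re (K := K) (hd.differentiableAt (isOpen_ball.mem_nhds hz₀.1)) ?_
      filter_upwards [hK, isOpen_ball.mem_nhds hz₀.1] with z hz hzb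
      exact (mode_zero_end hF hG hq h ha hzb).trans hz
    have h2 := zero_of_gam hq him hdd h1
    have h3 : ∀ z ∈ ball (0 : ℂ) 1, cm G 1 z = cm G 1 0 := by
      intro z hz
      exact isOpen_ball.is_const_of_deriv_eq_zero (convex_ball (0 : ℂ) 1).isPreconnected hd
        (fun x hx => h2 x hx) hz h00
    intro z hz
    rw [h3 z hz]
    unfold cm
    rw [co_one]; exact hG2
  -- higher coefficients
  have hab : ∀ m : ℕ, 1 ≤ m → ∀ z ∈ Gam q, cm F m z = 0 ∧ cm G (m + 1) z = 0 := by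
    intro m hm z₀ hz₀
    have hcont : ContinuousAt (fun z => 2 * C * (1 - ‖z‖ ^ 2) / (rr z) ^ m) z₀ := by
      apply ContinuousAt.div (by fun_prop)
      · exact (rr_continuous.pow m).continuousAt
      · have := rr_pos hz₀.1
        positivity
    obtain ⟨K, hK⟩ := eventually_mul_bound (q := q) hcont hz₀
    refine second_order (K := K) ((cm_diff hF m).differentiableAt (isOpen_ball.mem_nhds hz₀.1))
      ((cm_diff hG (m + 1)).differentiableAt (isOpen_ball.mem_nhds hz₀.1)) ?_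
    filter_upwards [hK, isOpen_ball.mem_nhds hz₀.1] with z hz hzb
    exact (modes_end hF hG hq h hb m hm hzb).trans hz
  have hFm : ∀ m : ℕ, ∀ z ∈ ball (0 : ℂ) 1, cm F m z = 0 := by
    intro m
    rcases Nat.eq_zero_or_pos m with rfl | hm
    · intro z hz; rw [cm_zero]; exact ha z hz
    · exact zero_of_gam hq him (cm_diff hF m) (fun z hz => (hab m hm z hz).1)
  have hGm : ∀ m : ℕ, ∀ z ∈ ball (0 : ℂ) 1, cm G m z = 0 := by
    intro m
    match m with
    | 0 => intro z hz; rw [cm_zero]; exact hb z hz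
    | 1 => exact hb1
    | (m + 2) => exact zero_of_gam hq him (cm_diff hG (m + 2))
                  (fun z hz => (hab (m + 1) (by omega) z hz).2)
  intro p hp
  obtain ⟨z, w⟩ := p
  have hp' : ‖z‖ ^ 2 + ‖w‖ ^ 2 < 1 := hp
  have hz : z ∈ ball (0 : ℂ) 1 := by
    have : ‖z‖ < 1 := by nlinarith [norm_nonneg z, norm_nonneg w]
    simpa using this
  have hw : w ∈ ball (0 : ℂ) (rr z) := by
    have h4 := rr_sq hz
    have h5 := rr_pos hz
    have : ‖w‖ < rr z := by nlinarith [norm_nonneg w]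
    simpa using this
  exact ⟨zero_of_co (slice_diff' hF hz) (fun j => hFm j z hz) w hw,
    zero_of_co (slice_diff' hG hz) (fun j => hGm j z hz) w hw⟩

end Pool.Agent.Helper64.SP
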