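import Pool.Agent.Helper64.SP.SSide
import Pool.Agent.Helper64.SP.Key2

open Complex MeasureTheory Metric Set Real Filter Topology ComplexConjugate

namespace Pool.Agent.Helper64.SP

abbrev E2 := EuclideanSpace ℂ (Fin 2)

/-- coordinates -/
noncomputable def P : E2 ≃L[ℂ] ℂ × ℂ :=
  (EuclideanSpace.equiv (Fin 2) ℂ).trans (ContinuousLinearEquiv.finTwoArrow ℂ ℂ)

lemma P_apply (z : E2) : P z = (z 0, z 1) := rfl

lemma P_symm_zero (p : ℂ × ℂ) : (P.symm p) 0 = p.1 := by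
  have h := P.apply_symm_apply p
  rw [P_apply] at h
  exact congrArg Prod.fst h

lemma P_symm_one (p : ℂ × ℂ) : (P.symm p) 1 = p.2 := by
  have h := P.apply_symm_apply p
  rw [P_apply] at h
  exact congrArg Prod.snd h

lemma norm_sq_E (z : E2) : ‖z‖ ^ 2 = ‖z 0‖ ^ 2 + ‖z 1‖ ^ 2 := by
  rw [EuclideanSpace.norm_sq_eq, Fin.sum_univ_two]

lemma inner_E (z w : E2) : inner ℂ z w = conj (z 0) * w 0 + conj (z 1) * w 1 := by
  rw [PiLp.inner_apply, Fin.sum_univ_two]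
  simp only [RCLike.inner_apply]
  ring

lemma mem_ball_iff (z : E2) : z ∈ ball (0 : E2) 1 ↔ ‖z 0‖ ^ 2 + ‖z 1‖ ^ 2 < 1 := by
  rw [mem_ball_zero_iff, ← norm_sq_E]
  constructor
  · intro h; nlinarith [norm_nonneg z]
  · intro h; nlinarith [norm_nonneg z]

lemma P_mem_BB (z : E2) : P z ∈ BB ↔ z ∈ ball (0 : E2) 1 := by
  rw [mem_ball_iff, P_apply]; rfl

lemma P_symm_mem (p : ℂ × ℂ) : P.symm p ∈ ball (0 : E2) 1 ↔ p ∈ BB := by
  rw [← P_mem_BB, P.apply_symm_apply]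

lemma fst_mem_ball {z : E2} (hz : z ∈ ball (0 : E2) 1) : z 0 ∈ ball (0 : ℂ) 1 := by
  rw [mem_ball_iff] at hz
  have : ‖z 0‖ < 1 := by nlinarith [norm_nonneg (z 0), norm_nonneg (z 1)]
  simpa using this

/-- triangular maps in coordinates -/
def tri (K V : ℂ → ℂ) (p : ℂ × ℂ) : ℂ × ℂ := (K p.1, p.2 * V p.1)

/-- the derivative of a triangular map as an equivalence -/
noncomputable def eqv (k v b v' : ℂ) (hk : k ≠ 0) (hv : v ≠ 0) : (ℂ × ℂ) ≃L[ℂ] (ℂ × ℂ) :=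
  ContinuousLinearEquiv.equivOfInverse
    ((k • ContinuousLinearMap.fst ℂ ℂ ℂ).prod
      (v • ContinuousLinearMap.snd ℂ ℂ ℂ + (b * v') • ContinuousLinearMap.fst ℂ ℂ ℂ))
    ((k⁻¹ • ContinuousLinearMap.fst ℂ ℂ ℂ).prod
      (v⁻¹ • ContinuousLinearMap.snd ℂ ℂ ℂ - (v⁻¹ * b * v' * k⁻¹) • ContinuousLinearMap.fst ℂ ℂ ℂ))
    (by
      intro p
      ext
      · simp [hk]
      · simp
        field_simp
        ring)
    (by
      intro p
      ext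
      · simp [hk]
      · simp
        field_simp
        ring)

lemma eqv_apply (k v b v' : ℂ) (hk : k ≠ 0) (hv : v ≠ 0) (p : ℂ × ℂ) :
    eqv k v b v' hk hv p = (k * p.1, v * p.2 + b * v' * p.1) := rfl

lemma tri_fderiv {K V : ℂ → ℂ} {k v' a b : ℂ} (hK : HasDerivAt K k a) (hV : HasDerivAt V v' a)
    (hk : k ≠ 0) (hv : V a ≠ 0) :
    HasFDerivAt (tri K V) (eqv k (V a) b v' hk hv : (ℂ × ℂ) →L[ℂ] (ℂ × ℂ)) (a, b) := by
  have h1 : HasFDerivAt (fun p : ℂ × ℂ => K p.1) (k • ContinuousLinearMap.fst ℂ ℂ ℂ) (a, b) := by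
    have h3 : HasFDerivAt (fun p : ℂ × ℂ => p.1) (ContinuousLinearMap.fst ℂ ℂ ℂ) (a, b) :=
      hasFDerivAt_fst
    exact HasDerivAt.comp_hasFDerivAt (a, b) hK h3
  have h2 : HasFDerivAt (fun p : ℂ × ℂ => V p.1) (v' • ContinuousLinearMap.fst ℂ ℂ ℂ) (a, b) := by
    have h3 : HasFDerivAt (fun p : ℂ × ℂ => p.1) (ContinuousLinearMap.fst ℂ ℂ ℂ) (a, b) :=
      hasFDerivAt_fst
    exact HasDerivAt.comp_hasFDerivAt (a, b) hV h3
  have h4 : HasFDerivAt (fun p : ℂ × ℂ => p.2) (ContinuousLinearMap.snd ℂ ℂ ℂ) (a, b) :=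
    hasFDerivAt_snd
  have h5 := h4.mul h2
  have h6 := h1.prodMk h5
  refine h6.congr_fderiv ?_
  ext
  · simp [eqv]
  · simp [eqv]
  · simp [eqv]
  · simp [eqv]

/-- the map of the ball attached to `K`, `V` -/
noncomputable def T (K V : ℂ → ℂ) : E2 → E2 :=
  (ball (0 : E2) 1).indicator fun z => P.symm (tri K V (P z))

lemma T_apply {K V : ℂ → ℂ} {z : E2} (hz : z ∈ ball (0 : E2) 1) :
    T K V z = P.symm (K (z 0), z 1 * V (z 0)) := by
  unfold T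
  rw [indicator_of_mem hz]
  rfl

lemma T_fderiv {K V : ℂ → ℂ} {k v' : ℂ} {z : E2} (hz : z ∈ ball (0 : E2) 1)
    (hK : HasDerivAt K k (z 0)) (hV : HasDerivAt V v' (z 0)) (hk : k ≠ 0) (hv : V (z 0) ≠ 0) :
    HasFDerivAt (T K V)
      (((P.trans (eqv k (V (z 0)) (z 1) v' hk hv)).trans P.symm : E2 ≃L[ℂ] E2) : E2 →L[ℂ] E2)
      z := by
  have h1 := tri_fderiv (b := z 1) hK hV hk hv
  have h2 : HasFDerivAt (fun z => tri K V (P z))
      ((eqv k (V (z 0)) (z 1) v' hk hv : (ℂ × ℂ) →L[ℂ] (ℂ × ℂ)).comp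
        (P : E2 →L[ℂ] ℂ × ℂ)) z := by
    exact HasFDerivAt.comp z h1 P.hasFDerivAt
  have h3 : HasFDerivAt (fun z => P.symm (tri K V (P z)))
      ((P.symm : ℂ × ℂ →L[ℂ] E2).comp ((eqv k (V (z 0)) (z 1) v' hk hv :
        (ℂ × ℂ) →L[ℂ] (ℂ × ℂ)).comp (P : E2 →L[ℂ] ℂ × ℂ))) z := by
    exact HasFDerivAt.comp z P.symm.hasFDerivAt h2
  have h4 : HasFDerivAt (T K V)
      ((P.symm : ℂ × ℂ →L[ℂ] E2).comp ((eqv k (V (z 0)) (z 1) v' hk hv :
        (ℂ × ℂ) →L[ℂ] (ℂ × ℂ)).comp (P : E2 →L[ℂ] ℂ × ℂ))) z := by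
    apply h3.congr_of_eventuallyEq
    filter_upwards [isOpen_ball.mem_nhds hz] with w hw
    rw [T_apply hw]; rfl
  exact h4

lemma T_inverse {K V : ℂ → ℂ} {k v' : ℂ} {z : E2} (hz : z ∈ ball (0 : E2) 1)
    (hK : HasDerivAt K k (z 0)) (hV : HasDerivAt V v' (z 0)) (hk : k ≠ 0) (hv : V (z 0) ≠ 0) :
    (fderiv ℂ (T K V) z).inverse (T K V z) =
      P.symm (K (z 0) / k, z 1 * (1 - (v' / V (z 0)) * (K (z 0) / k))) := by
  have h1 := (T_fderiv hz hK hV hk hv).fderiv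
  rw [h1, ContinuousLinearMap.inverse_equiv]
  simp only [ContinuousLinearEquiv.coe_coe]
  rw [ContinuousLinearEquiv.symm_apply_eq]
  simp only [ContinuousLinearEquiv.trans_apply, ContinuousLinearEquiv.apply_symm_apply]
  rw [eqv_apply, T_apply hz]
  congr 1
  ext
  · simp only; field_simp
  · simp only; field_simp; ring

end Pool.Agent.Helper64.SP
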