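import Pool.Agent.Helper64.SP.Members

open Complex MeasureTheory Metric Set Real Filter Topology ComplexConjugate

namespace Pool.Agent.Helper64.SP

/-- `h⁰` in coordinates -/
noncomputable def hc (q : ℂ) (p : ℂ × ℂ) : ℂ × ℂ := tri (fun z => z * pp z) (cc q) p

lemma hh_apply' (q : ℂ) {z : E2} (hz : z ∈ ball (0 : E2) 1) :
    hh q z = P.symm (hc q (P z)) := hh_apply q hz

lemma fst_mem_of_BB {p : ℂ × ℂ} (hp : p ∈ BB) : p.1 ∈ ball (0 : ℂ) 1 := by
  have hp' : ‖p.1‖ ^ 2 + ‖p.2‖ ^ 2 < 1 := hp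
  have : ‖p.1‖ < 1 := by nlinarith [norm_nonneg p.1, norm_nonneg p.2]
  simpa using this

lemma hc_diff (q : ℂ) : DifferentiableOn ℂ (hc q) BB := by
  intro p hp
  have h1 := fst_mem_of_BB hp
  have h2 : DifferentiableAt ℂ pp p.1 := (pp_diff).differentiableAt (isOpen_ball.mem_nhds h1)
  have h3 : DifferentiableAt ℂ (cc q) p.1 :=
    (cc_diff q).differentiableAt (isOpen_ball.mem_nhds h1)
  apply DifferentiableAt.differentiableWithinAt
  have h4 : DifferentiableAt ℂ (fun p : ℂ × ℂ => pp p.1) p := h2.comp p differentiableAt_fst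
  have h5 : DifferentiableAt ℂ (fun p : ℂ × ℂ => cc q p.1) p := h3.comp p differentiableAt_fst
  unfold hc tri
  exact (differentiableAt_fst.mul h4).prodMk (differentiableAt_snd.mul h5)

lemma zero_mem_ball : (0 : ℂ) ∈ ball (0 : ℂ) 1 := by simp

lemma zero_mem_BB : (0 : ℂ × ℂ) ∈ BB := by
  show ‖(0 : ℂ)‖ ^ 2 + ‖(0 : ℂ)‖ ^ 2 < 1
  simp

lemma hc_fderiv (q : ℂ) : HasFDerivAt (hc q) (ContinuousLinearMap.id ℂ (ℂ × ℂ)) 0 := by
  have h2 : DifferentiableAt ℂ pp 0 :=
    (pp_diff).differentiableAt (isOpen_ball.mem_nhds zero_mem_ball)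
  have h3 : DifferentiableAt ℂ (cc q) 0 :=
    (cc_diff q).differentiableAt (isOpen_ball.mem_nhds zero_mem_ball)
  have h4 : HasDerivAt (fun z : ℂ => z * pp z) 1 0 := by
    have := (hasDerivAt_id (0 : ℂ)).mul h2.hasDerivAt
    refine this.congr_deriv ?_
    simp [pp]
  have hc0 : cc q 0 = 1 := by simp [cc]
  have h5 := tri_fderiv (b := 0) h4 h3.hasDerivAt one_ne_zero (by rw [hc0]; exact one_ne_zero)
  refine h5.congr_fderiv ?_
  ext
  · simp [eqv]
  · simp [eqv]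
  · simp [eqv]
  · simp [eqv, hc0]

lemma hh_mem {q : ℂ} (hq : GoodQ q) : hh q ∈ NN := by
  have hdiff : DifferentiableOn ℂ (fun z => P.symm (hc q (P z))) (ball (0 : E2) 1) := by
    apply P.symm.differentiable.comp_differentiableOn
    apply (hc_diff q).comp P.differentiable.differentiableOn
    intro z hz
    exact (P_mem_BB z).2 hz
  refine ⟨?_, ?_, ?_, ?_, ?_⟩
  · exact hdiff.congr (fun z hz => hh_apply' q hz)
  · rw [hh_apply' q zero_mem]
    simp [hc, tri]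
  · have h1 : HasFDerivAt (fun z => P.symm (hc q (P z))) (ContinuousLinearMap.id ℂ E2) 0 := by
      have h2 : HasFDerivAt (hc q) (ContinuousLinearMap.id ℂ (ℂ × ℂ)) (P 0) := by
        rw [map_zero]; exact hc_fderiv q
      have h3 := HasFDerivAt.comp (0 : E2) h2 P.hasFDerivAt
      have h4 := HasFDerivAt.comp (0 : E2) P.symm.hasFDerivAt h3
      refine h4.congr_fderiv ?_
      ext1 v
      simp
    have h5 : HasFDerivAt (hh q) (ContinuousLinearMap.id ℂ E2) 0 := by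
      apply h1.congr_of_eventuallyEq
      filter_upwards [isOpen_ball.mem_nhds zero_mem] with w hw
      exact hh_apply' q hw
    exact h5.fderiv
  · intro z hz hne
    rw [hh_apply q hz, inner_P_symm]
    have := pos_re hq adm_zero ((mem_ball_iff z).1 hz) (ne_zero_coord hne)
    rwa [cs_zero] at this
  · intro z hz
    unfold hh
    rw [indicator_of_notMem hz]

lemma inner_hh {q : ℂ} {z : E2} (hz : z ∈ ball (0 : E2) 1) :
    (inner ℂ z (hh q z)).re = UU q (z 0) ‖z 1‖ := by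
  rw [hh_apply q hz, inner_P_symm]
  rfl

lemma inner_nonneg_of_mem {x : E2 → E2} (hx : x ∈ NN) {z : E2} (hz : z ∈ ball (0 : E2) 1) :
    0 ≤ (inner ℂ z (x z)).re := by
  by_cases h : z = 0
  · rw [h]; simp
  · exact (hx.2.2.2.1 z hz h).le

lemma axis_deriv1 {F : ℂ × ℂ → ℂ} (h : HasFDerivAt F (0 : ℂ × ℂ →L[ℂ] ℂ) 0) :
    deriv (fun z : ℂ => F (z, 0)) 0 = 0 := by
  have e1 : HasDerivAt (fun z : ℂ => ((z, 0) : ℂ × ℂ)) (1, 0) 0 :=
    (hasDerivAt_id (0 : ℂ)).prodMk (hasDerivAt_const (0 : ℂ) (0 : ℂ))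
  have e2 : HasDerivAt (fun z : ℂ => F (z, 0)) ((0 : ℂ × ℂ →L[ℂ] ℂ) (1, 0)) 0 :=
    HasFDerivAt.comp_hasDerivAt (x := (0 : ℂ)) (f := fun z : ℂ => ((z, 0) : ℂ × ℂ))
      (l := F) (l' := 0) h e1
  exact e2.deriv

lemma axis_deriv2 {F : ℂ × ℂ → ℂ} (h : HasFDerivAt F (0 : ℂ × ℂ →L[ℂ] ℂ) 0) :
    deriv (fun z : ℂ => F (0, z)) 0 = 0 := by
  have e1 : HasDerivAt (fun z : ℂ => ((0, z) : ℂ × ℂ)) (0, 1) 0 :=
    (hasDerivAt_const (0 : ℂ) (0 : ℂ)).prodMk (hasDerivAt_id (0 : ℂ))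
  have e2 : HasDerivAt (fun z : ℂ => F (0, z)) ((0 : ℂ × ℂ →L[ℂ] ℂ) (0, 1)) 0 :=
    HasFDerivAt.comp_hasDerivAt (x := (0 : ℂ)) (f := fun z : ℂ => ((0, z) : ℂ × ℂ))
      (l := F) (l' := 0) h e1
  exact e2.deriv

lemma hh_extreme {q : ℂ} (hq : GoodQ q) : hh q ∈ Set.extremePoints ℝ NN := by
  rw [mem_extremePoints_iff_left]
  refine ⟨hh_mem hq, ?_⟩
  intro x₁ h₁ x₂ h₂ hseg
  obtain ⟨a, b, ha, hb, hab, hsum⟩ := hseg
  -- coordinates
  set X : ℂ × ℂ → ℂ × ℂ := fun p => P (x₁ (P.symm p)) - hc q p with hX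
  set F : ℂ × ℂ → ℂ := fun p => (X p).1 with hF
  set G : ℂ × ℂ → ℂ := fun p => (X p).2 with hG
  have hXd : DifferentiableOn ℂ X BB := by
    apply DifferentiableOn.sub _ (hc_diff q)
    apply P.differentiable.comp_differentiableOn
    apply h₁.1.comp P.symm.differentiable.differentiableOn
    intro p hp
    exact (P_symm_mem p).2 hp
  have hFd : DifferentiableOn ℂ F BB := hXd.fst
  have hGd : DifferentiableOn ℂ G BB := hXd.snd
  have hXf : HasFDerivAt X (0 : ℂ × ℂ →L[ℂ] ℂ × ℂ) 0 := by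
    have e1 : HasFDerivAt x₁ (ContinuousLinearMap.id ℂ E2) (P.symm 0) := by
      rw [map_zero]
      have e2 : DifferentiableAt ℂ x₁ 0 := h₁.1.differentiableAt (isOpen_ball.mem_nhds zero_mem)
      have e3 := e2.hasFDerivAt
      rwa [h₁.2.2.1] at e3
    have e4 := HasFDerivAt.comp (0 : ℂ × ℂ) e1 P.symm.hasFDerivAt
    have e5 := HasFDerivAt.comp (0 : ℂ × ℂ) P.hasFDerivAt e4
    have e6 := e5.sub (hc_fderiv q)
    refine e6.congr_fderiv ?_
    ext <;> simp
  have hX0 : X 0 = 0 := by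
    simp [hX, h₁.2.1, hc, tri]
  have hFf : HasFDerivAt F (0 : ℂ × ℂ →L[ℂ] ℂ) 0 := by
    refine hXf.fst.congr_fderiv ?_
    ext <;> simp
  have hGf : HasFDerivAt G (0 : ℂ × ℂ →L[ℂ] ℂ) 0 := by
    refine hXf.snd.congr_fderiv ?_
    ext <;> simp
  have hbound : ∀ p ∈ BB, |(conj p.1 * F p + conj p.2 * G p).re| ≤ a⁻¹ * UU q p.1 ‖p.2‖ := by
    intro p hp
    have hz := (P_symm_mem p).2 hp
    set z := P.symm p with hzd
    have hz0 : z 0 = p.1 := P_symm_zero p
    have hz1 : z 1 = p.2 := P_symm_one p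
    have e1 : (conj p.1 * F p + conj p.2 * G p).re =
        (inner ℂ z (x₁ z)).re - (inner ℂ z (hh q z)).re := by
      rw [← Complex.sub_re, ← inner_sub_right, inner_E, hz0, hz1]
      have e2 : x₁ z - hh q z = P.symm (X p) := by
        rw [hh_apply' q hz, hX, hzd]
        simp
      rw [e2, P_symm_zero, P_symm_one]
    have e3 : (inner ℂ z (hh q z)).re = UU q p.1 ‖p.2‖ := by
      rw [inner_hh hz, hz0, hz1]
    have e4 : (inner ℂ z (hh q z)).re =
        a * (inner ℂ z (x₁ z)).re + b * (inner ℂ z (x₂ z)).re := by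
      have e5 : hh q z = (a : ℂ) • x₁ z + (b : ℂ) • x₂ z := by
        rw [← hsum]
        simp only [Pi.add_apply, Pi.smul_apply]
        rw [RCLike.real_smul_eq_coe_smul (K := ℂ) a, RCLike.real_smul_eq_coe_smul (K := ℂ) b]
        rfl
      rw [e5, inner_add_right, inner_smul_right, inner_smul_right, Complex.add_re,
        Complex.re_ofReal_mul, Complex.re_ofReal_mul]
    have p1 := inner_nonneg_of_mem h₁ hz
    have p2 := inner_nonneg_of_mem h₂ hz
    set A := (inner ℂ z (x₁ z)).re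
    set B := (inner ℂ z (x₂ z)).re
    set U := (inner ℂ z (hh q z)).re
    rw [e1, ← e3]
    have hU : 0 ≤ U := by rw [e4]; positivity
    have hA : A ≤ a⁻¹ * U := by
      rw [e4, mul_add, ← mul_assoc, inv_mul_cancel₀ ha.ne', one_mul]
      have : 0 ≤ a⁻¹ * (b * B) := by positivity
      linarith
    have h1a : 1 ≤ a⁻¹ := by
      rw [one_le_inv₀ ha]; linarith
    have hUU : U ≤ a⁻¹ * U := by
      nlinarith
    rw [abs_le]
    constructor <;> linarith
  have hk := key (F := F) (G := G) (q := q) (C := a⁻¹) hFd hGd hq.norm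
    (by rw [hq.im]; norm_num) (by positivity) hbound
    (by have := congrArg Prod.fst hX0; exact this) (by have := congrArg Prod.snd hX0; exact this)
    (axis_deriv1 hFf) (axis_deriv2 hFf) (axis_deriv1 hGf) (axis_deriv2 hGf)
  funext z
  by_cases hz : z ∈ ball (0 : E2) 1
  · have hp := (P_mem_BB z).2 hz
    obtain ⟨k1, k2⟩ := hk _ hp
    have k3 : X (P z) = 0 := Prod.ext k1 k2
    rw [hX] at k3
    simp only [ContinuousLinearEquiv.symm_apply_apply] at k3
    rw [hh_apply' q hz]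
    rw [sub_eq_zero] at k3
    rw [← k3, ContinuousLinearEquiv.symm_apply_apply]
  · rw [h₁.2.2.2.2 z hz, (hh_mem hq).2.2.2.2 z hz]

end Pool.Agent.Helper64.SP
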