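import Pool.Agent.Helper64.SP.Extreme

open Complex MeasureTheory Metric Set Real Filter Topology ComplexConjugate

namespace Pool.Agent.Helper64.SP

lemma goodQ_exists : ∃ q : ℂ, GoodQ q := by
  set s : ℝ := 1 / 100000 with hs
  have h1 : 0 ≤ 1 - s ^ 2 := by rw [hs]; norm_num
  refine ⟨⟨√(1 - s ^ 2), s⟩, ?_, ?_, ?_, ?_⟩
  · rw [Complex.norm_def, Complex.normSq_apply]
    simp only
    rw [Real.mul_self_sqrt h1]
    have : 1 - s ^ 2 + s * s = 1 := by ring
    rw [this, Real.sqrt_one]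
  · rfl
  · show √(1 - s ^ 2) ≤ 1
    apply Real.sqrt_le_one.2
    nlinarith [sq_nonneg s]
  · show 1 - 1 / 10000000 ≤ √(1 - s ^ 2)
    apply Real.le_sqrt_of_sq_le
    rw [hs]; norm_num

lemma adm_pos : Adm (1 / 10000) := Or.inr rfl

lemma adm_neg : Adm (-(1 / 10000)) := Or.inr (by ring)

lemma ff_not_extreme {q : ℂ} (hq : GoodQ q) : ff q 0 ∉ Set.extremePoints ℝ SS := by
  intro h
  rw [mem_extremePoints_iff_left] at h
  have h1 := h.2 (ff q (1 / 10000)) (ff_mem hq adm_pos) (ff q (-(1 / 10000))) (ff_mem hq adm_neg)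
    ⟨1 / 2, 1 / 2, by norm_num, by norm_num, by norm_num, by
      funext z
      simp only [Pi.add_apply, Pi.smul_apply]
      exact (ff_zero_mid q (1 / 10000) z).symm⟩
  exact ff_ne q (by norm_num) h1

lemma spec_cond : ∃ c : ℝ, (∀ μ ∈ spectrum ℂ (ContinuousLinearMap.id ℂ E2), μ.re ≤ c) ∧
      ∀ z : E2, ‖z‖ = 1 → c < 2 * (inner ℂ z ((ContinuousLinearMap.id ℂ E2) z)).re := by
  refine ⟨1, ?_, ?_⟩
  · intro μ hμ
    have h1 : (ContinuousLinearMap.id ℂ E2) = (1 : E2 →L[ℂ] E2) := rfl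
    rw [h1, spectrum.one_eq, mem_singleton_iff] at hμ
    rw [hμ]; simp
  · intro z hz
    rw [ContinuousLinearMap.id_apply, inner_self_eq_norm_sq_to_K, hz]
    norm_num

end Pool.Agent.Helper64.SP
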