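import Pool.Agent.Helper64.SP.ModeOne

open Complex MeasureTheory Metric Set Real Filter Topology ComplexConjugate

namespace Pool.Agent.Helper64.SP

/-- `p(z) = (1-z)/(1+z)`. -/
noncomputable def pp (z : ℂ) : ℂ := (1 - z) / (1 + z)

/-- `c(z) = 1 - 2√2 q G + q² G²`, `G = z/(1+z)`. -/
noncomputable def cc (q z : ℂ) : ℂ :=
  1 - 2 * (√2 : ℝ) * q * (z / (1 + z)) + q ^ 2 * (z / (1 + z)) ^ 2

/-- the size of `Re ⟨h(z), z⟩` -/
noncomputable def UU (q z : ℂ) (r : ℝ) : ℝ := ‖z‖ ^ 2 * (pp z).re + r ^ 2 * (cc q z).re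

/-- the defect `(1-√2 Re(qG))²`. -/
noncomputable def RR (q z : ℂ) : ℝ := (1 - √2 * (q * (z / (1 + z))).re) ^ 2

lemma one_add_ne {z : ℂ} (hz : z ∈ ball (0 : ℂ) 1) : 1 + z ≠ 0 := by
  have hz1 : ‖z‖ < 1 := by simpa using hz
  intro h
  have : z = -1 := by linear_combination h
  rw [this] at hz1; simp at hz1

lemma pp_re {z : ℂ} (hz : z ∈ ball (0 : ℂ) 1) : (pp z).re * ‖1 + z‖ ^ 2 = 1 - ‖z‖ ^ 2 := by
  have h0 := one_add_ne hz
  have hn : Complex.normSq (1 + z) ≠ 0 := by simpa [Complex.normSq_eq_zero] using h0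
  unfold pp
  rw [Complex.div_re, ← Complex.normSq_eq_norm_sq, ← Complex.normSq_eq_norm_sq]
  field_simp
  simp [Complex.normSq_apply]
  ring

lemma norm_one_add_sq (z : ℂ) : ‖1 + z‖ ^ 2 = 1 + 2 * z.re + ‖z‖ ^ 2 := by
  rw [← Complex.normSq_eq_norm_sq, ← Complex.normSq_eq_norm_sq]
  simp [Complex.normSq_apply]
  ring

lemma cc_bound {q z : ℂ} (hq : ‖q‖ = 1) (hz : z ∈ ball (0 : ℂ) 1) :
    ‖cc q z‖ * ‖1 + z‖ ^ 2 ≤ 12 := by
  have h0 := one_add_ne hz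
  have hz1 : ‖z‖ ≤ 1 := by
    have : ‖z‖ < 1 := by simpa using hz
    exact this.le
  have h1 : cc q z * (1 + z) ^ 2 = (1 + z) ^ 2 - 2 * (√2 : ℝ) * q * z * (1 + z) + q ^ 2 * z ^ 2 := by
    unfold cc; field_simp
  rw [← norm_pow, ← norm_mul, h1]
  have h2 : ‖1 + z‖ ≤ 2 := by
    calc ‖1 + z‖ ≤ ‖(1 : ℂ)‖ + ‖z‖ := norm_add_le _ _
      _ ≤ 2 := by rw [norm_one]; linarith
  have hs : √2 ≤ 1.5 := by
    rw [Real.sqrt_le_left (by norm_num)]; norm_num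
  calc ‖(1 + z) ^ 2 - 2 * (√2 : ℝ) * q * z * (1 + z) + q ^ 2 * z ^ 2‖
      ≤ ‖(1 + z) ^ 2 - 2 * (√2 : ℝ) * q * z * (1 + z)‖ + ‖q ^ 2 * z ^ 2‖ := norm_add_le _ _
    _ ≤ ‖(1 + z) ^ 2‖ + ‖2 * (√2 : ℝ) * q * z * (1 + z)‖ + ‖q ^ 2 * z ^ 2‖ := by
        gcongr; exact norm_sub_le _ _
    _ = ‖1 + z‖ ^ 2 + 2 * √2 * ‖z‖ * ‖1 + z‖ + ‖z‖ ^ 2 := by
        simp only [norm_mul, norm_pow, hq, Complex.norm_real, Complex.norm_ofNat]
        rw [Real.norm_of_nonneg (Real.sqrt_nonneg 2)]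
        ring
    _ ≤ 2 ^ 2 + 2 * 1.5 * 1 * 2 + 1 ^ 2 := by gcongr
    _ ≤ 12 := by norm_num

lemma UU_le {q z : ℂ} (hq : ‖q‖ = 1) (hz : z ∈ ball (0 : ℂ) 1) (r : ℝ) :
    UU q z r * ‖1 + z‖ ^ 2 ≤ (1 - ‖z‖ ^ 2) + 12 * r ^ 2 := by
  have hz1 : ‖z‖ ≤ 1 := by
    have : ‖z‖ < 1 := by simpa using hz
    exact this.le
  unfold UU
  have h1 := pp_re hz
  have h2 := cc_bound hq hz
  have h3 : (cc q z).re ≤ ‖cc q z‖ := Complex.re_le_norm _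
  have h4 : 0 ≤ 1 - ‖z‖ ^ 2 := by nlinarith [norm_nonneg z]
  have h5 : (cc q z).re * ‖1 + z‖ ^ 2 ≤ 12 :=
    (mul_le_mul_of_nonneg_right h3 (by positivity)).trans h2
  calc (‖z‖ ^ 2 * (pp z).re + r ^ 2 * (cc q z).re) * ‖1 + z‖ ^ 2
      = ‖z‖ ^ 2 * ((pp z).re * ‖1 + z‖ ^ 2) + r ^ 2 * ((cc q z).re * ‖1 + z‖ ^ 2) := by ring
    _ = ‖z‖ ^ 2 * (1 - ‖z‖ ^ 2) + r ^ 2 * ((cc q z).re * ‖1 + z‖ ^ 2) := by rw [h1]
    _ ≤ 1 * (1 - ‖z‖ ^ 2) + r ^ 2 * 12 := by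
        gcongr
        nlinarith [norm_nonneg z]
    _ = _ := by ring

/-- the perfect square identity -/
lemma perfect_square {q z : ℂ} (hq : ‖q‖ = 1) (hz : z ∈ ball (0 : ℂ) 1) {r : ℝ}
    (hr : r ^ 2 = 1 - ‖z‖ ^ 2) : UU q z r = (1 - ‖z‖ ^ 2) * RR q z := by
  have h0 := one_add_ne hz
  have hn : 0 < ‖1 + z‖ ^ 2 := by positivity
  have h1 : (pp z).re = (1 - ‖z‖ ^ 2) / ‖1 + z‖ ^ 2 := by
    rw [eq_div_iff hn.ne', pp_re hz]
  set G : ℂ := z / (1 + z) with hG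
  have hGn : ‖z‖ ^ 2 / ‖1 + z‖ ^ 2 = ‖q * G‖ ^ 2 := by
    rw [norm_mul, hq, one_mul, hG, norm_div, div_pow]
  have h2 : (cc q z).re = 1 - 2 * √2 * (q * G).re + ((q * G).re ^ 2 - (q * G).im ^ 2) := by
    have : cc q z = 1 - ((2 * √2 : ℝ) : ℂ) * (q * G) + (q * G) ^ 2 := by
      unfold cc; push_cast; ring
    have h6 : ((q * G) ^ 2).re = (q * G).re ^ 2 - (q * G).im ^ 2 := by
      rw [pow_two, Complex.mul_re]; ring
    rw [this, Complex.add_re, Complex.sub_re, Complex.re_ofReal_mul, Complex.one_re, h6]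
  have h3 : ‖q * G‖ ^ 2 = (q * G).re ^ 2 + (q * G).im ^ 2 := by
    rw [← Complex.normSq_eq_norm_sq, Complex.normSq_apply]; ring
  unfold UU RR
  rw [hr, h1, h2, ← hG]
  have h4 : ‖z‖ ^ 2 * ((1 - ‖z‖ ^ 2) / ‖1 + z‖ ^ 2) = (1 - ‖z‖ ^ 2) * ‖q * G‖ ^ 2 := by
    rw [← hGn]; ring
  rw [h4, h3]
  have h5 : √2 ^ 2 = 2 := Real.sq_sqrt (by norm_num)
  linear_combination (1 - ‖z‖ ^ 2) * (-(q * G).re ^ 2) * h5

lemma deriv_zero_of_sq {f : ℝ → ℂ} {f' : ℂ} {K : ℝ} (hf : HasDerivAt f f' 0)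
    (h : ∀ᶠ t in 𝓝 (0 : ℝ), ‖f t‖ ≤ K * t ^ 2) : f 0 = 0 ∧ f' = 0 := by
  have h0 : f 0 = 0 := by
    have := h.self_of_nhds
    simp at this
    exact this
  refine ⟨h0, ?_⟩
  have h1 : HasDerivAt f 0 0 := by
    rw [hasDerivAt_iff_isLittleO]
    simp only [sub_zero, smul_zero, h0]
    have h2 : f =O[𝓝 0] (fun t : ℝ => t ^ 2) := by
      apply Asymptotics.IsBigO.of_bound K
      filter_upwards [h] with t ht
      rw [Real.norm_of_nonneg (sq_nonneg t)]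
      exact ht
    have h3 : (fun t : ℝ => t ^ 2) =o[𝓝 0] (fun t : ℝ => t) := by
      have := Asymptotics.isLittleO_pow_pow (𝕜 := ℝ) (show 1 < 2 by norm_num)
      simpa using this
    exact h2.trans_isLittleO h3
  exact hf.unique h1

lemma line_tendsto (z₀ v : ℂ) : Tendsto (fun t : ℝ => z₀ + t * v) (𝓝 0) (𝓝 z₀) := by
  have : Continuous (fun t : ℝ => z₀ + t * v) := by fun_prop
  have h := this.tendsto 0
  simpa using h

lemma line_deriv (z₀ v : ℂ) : HasDerivAt (fun t : ℝ => z₀ + t * v) v 0 := by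
  have h1 : HasDerivAt (fun t : ℝ => (t : ℂ)) 1 0 := Complex.ofRealCLM.hasDerivAt
  have h2 := (h1.mul_const v).const_add z₀
  simpa using h2

lemma comp_line {a : ℂ → ℂ} {z₀ : ℂ} (ha : DifferentiableAt ℂ a z₀) (v : ℂ) :
    HasDerivAt (fun t : ℝ => a (z₀ + t * v)) (deriv a z₀ * v) 0 := by
  have h1 : HasDerivAt a (deriv a z₀) ((fun t : ℝ => z₀ + t * v) 0) := by
    simpa using ha.hasDerivAt
  have h2 := h1.comp_of_eq (0 : ℝ) (line_deriv z₀ v) rfl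
  exact h2

lemma second_order {a b : ℂ → ℂ} {z₀ : ℂ} {K : ℝ} (ha : DifferentiableAt ℂ a z₀)
    (hb : DifferentiableAt ℂ b z₀)
    (h : ∀ᶠ z in 𝓝 z₀, ‖conj z * a z + (1 - z * conj z) * b z‖ ≤ K * ‖z - z₀‖ ^ 2) :
    a z₀ = 0 ∧ b z₀ = 0 := by
  have hv : ∀ v : ℂ, ‖v‖ = 1 →
      (conj z₀ * a z₀ + (1 - z₀ * conj z₀) * b z₀ = 0) ∧
      (conj v * a z₀ + conj z₀ * (deriv a z₀ * v) + (-(v * conj z₀ + z₀ * conj v) * b z₀ +
        (1 - z₀ * conj z₀) * (deriv b z₀ * v)) = 0) := by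
    intro v hv
    have d1 := line_deriv z₀ v
    have d2 : HasDerivAt (fun t : ℝ => conj (z₀ + t * v)) (conj v) 0 := by
      exact Complex.conjCLE.toContinuousLinearMap.hasFDerivAt.comp_hasDerivAt (0 : ℝ) d1
    have d3 := comp_line ha v
    have d4 := comp_line hb v
    have d5 : HasDerivAt (fun t : ℝ => conj (z₀ + t * v) * a (z₀ + t * v) +
        (1 - (z₀ + t * v) * conj (z₀ + t * v)) * b (z₀ + t * v))
        (conj v * a z₀ + conj z₀ * (deriv a z₀ * v) + (-(v * conj z₀ + z₀ * conj v) * b z₀ +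
        (1 - z₀ * conj z₀) * (deriv b z₀ * v))) 0 := by
      have h6 := (d2.mul d3).add (((d1.mul d2).const_sub 1).mul d4)
      refine h6.congr_deriv ?_
      simp
    have h1 : ∀ᶠ t in 𝓝 (0 : ℝ), ‖(fun t : ℝ => conj (z₀ + t * v) * a (z₀ + t * v) +
        (1 - (z₀ + t * v) * conj (z₀ + t * v)) * b (z₀ + t * v)) t‖ ≤ K * t ^ 2 := by
      filter_upwards [(line_tendsto z₀ v).eventually h] with t ht
      have e1 : ‖z₀ + t * v - z₀‖ ^ 2 = t ^ 2 := by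
        rw [add_sub_cancel_left, norm_mul, hv, Complex.norm_real, mul_one, Real.norm_eq_abs, sq_abs]
      rw [e1] at ht
      simpa using ht
    have h2 := deriv_zero_of_sq d5 h1
    refine ⟨?_, h2.2⟩
    have h7 := h2.1
    simp only [Complex.ofReal_zero, zero_mul, add_zero] at h7
    exact h7
  obtain ⟨e0, e1⟩ := hv 1 (by simp)
  obtain ⟨_, e2⟩ := hv I (by simp)
  simp only [map_one, Complex.conj_I, mul_one, one_mul] at e1 e2
  have hab : a z₀ = z₀ * b z₀ := by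
    linear_combination (1 / 2 : ℂ) * e1 + (I / 2) * e2 +
      (1 / 2 : ℂ) * (a z₀ - conj z₀ * deriv a z₀ + conj z₀ * b z₀ - z₀ * b z₀ -
        (1 - z₀ * conj z₀) * deriv b z₀) * Complex.I_sq
  have hb0 : b z₀ = 0 := by
    rw [hab] at e0
    linear_combination e0
  exact ⟨by rw [hab, hb0, mul_zero], hb0⟩

lemma second_order_re {b : ℂ → ℂ} {z₀ : ℂ} {K : ℝ} (hb : DifferentiableAt ℂ b z₀)
    (h : ∀ᶠ z in 𝓝 z₀, |(b z).re| ≤ K * ‖z - z₀‖ ^ 2) : deriv b z₀ = 0 := by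
  have hv : ∀ v : ℂ, ‖v‖ = 1 → (deriv b z₀ * v).re = 0 := by
    intro v hv
    have d1 := comp_line hb v
    have d2 : HasDerivAt (fun t : ℝ => (((b (z₀ + t * v)).re : ℝ) : ℂ))
        (((deriv b z₀ * v).re : ℝ) : ℂ) 0 := by
      exact (Complex.ofRealCLM.comp Complex.reCLM).hasFDerivAt.comp_hasDerivAt (0 : ℝ) d1
    have h1 : ∀ᶠ t in 𝓝 (0 : ℝ),
        ‖(fun t : ℝ => (((b (z₀ + t * v)).re : ℝ) : ℂ)) t‖ ≤ K * t ^ 2 := by
      filter_upwards [(line_tendsto z₀ v).eventually h] with t ht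
      have e1 : ‖z₀ + t * v - z₀‖ ^ 2 = t ^ 2 := by
        rw [add_sub_cancel_left, norm_mul, hv, Complex.norm_real, mul_one, Real.norm_eq_abs, sq_abs]
      rw [e1] at ht
      show ‖(((b (z₀ + t * v)).re : ℝ) : ℂ)‖ ≤ K * t ^ 2
      rwa [Complex.norm_real, Real.norm_eq_abs]
    have h2 := (deriv_zero_of_sq d2 h1).2
    exact_mod_cast h2
  have e1 := hv 1 (by simp)
  have e2 := hv I (by simp)
  rw [mul_one] at e1
  rw [Complex.mul_I_re] at e2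
  exact Complex.ext e1 (by simpa using e2)

end Pool.Agent.Helper64.SP
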