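import Pool.Agent.Helper64.SP.Gamma

open Complex MeasureTheory Metric Set Real Filter Topology ComplexConjugate

namespace Pool.Agent.Helper64.SP

lemma ineq_small {x y δ A L s : ℝ} (hx : 0 < x)
    (hs : s ^ 2 = (1 / 10000 : ℝ) ^ 2) (hδ : x + 0.41 ≤ δ) (hA1 : 0.999 ≤ A) (hA2 : A ≤ 1.001)
    (hL1 : -0.7 ≤ L) (hL4 : L < 4) (hy : y ^ 2 ≤ 110 ^ 2) (hxx : x ≤ 110)
    (hneg : L < 0 → (1 + x) ^ 2 + y ^ 2 ≤ 4) :
    0 ≤ δ ^ 2 * A ^ 2 - s * (2 * x - 1) * y * A +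
      s ^ 2 * (δ ^ 2 * L ^ 2 + (y ^ 2 + x - x ^ 2) * L) := by
  have h1 : (x + 0.41) ^ 2 * 0.998 ≤ δ ^ 2 * A ^ 2 := by
    have e1 : (x + 0.41) ^ 2 ≤ δ ^ 2 := by gcongr
    have e2 : (0.998 : ℝ) ≤ A ^ 2 := by nlinarith
    gcongr
  have h2 : |s * (2 * x - 1) * y * A| ≤ 0.0112 * (2 * x + 1) := by
    have hs1 : |s| = 1 / 10000 := by
      rw [← abs_of_pos (by norm_num : (0 : ℝ) < 1 / 10000)]
      exact (sq_eq_sq_iff_abs_eq_abs _ _).1 hs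
    have hy1 : |y| ≤ 110 := abs_le_of_sq_le_sq hy (by norm_num)
    have hA3 : |A| ≤ 1.001 := by rw [abs_le]; constructor <;> linarith
    have hx1 : |2 * x - 1| ≤ 2 * x + 1 := by rw [abs_le]; constructor <;> linarith
    rw [abs_mul, abs_mul, abs_mul, hs1]
    calc 1 / 10000 * |2 * x - 1| * |y| * |A| ≤ 1 / 10000 * (2 * x + 1) * 110 * 1.001 := by
          gcongr
      _ ≤ 0.0112 * (2 * x + 1) := by nlinarith
  have h3 : -(1 / 10000 : ℝ) ^ 2 * (4 * x ^ 2 + 5) ≤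
      s ^ 2 * (δ ^ 2 * L ^ 2 + (y ^ 2 + x - x ^ 2) * L) := by
    rw [hs]
    have e1 : -(4 * x ^ 2 + 5) ≤ δ ^ 2 * L ^ 2 + (y ^ 2 + x - x ^ 2) * L := by
      have e2 : 0 ≤ δ ^ 2 * L ^ 2 := by positivity
      rcases lt_or_ge L 0 with hL | hL
      · have e3 := hneg hL
        have e4 : x ≤ 1 := by nlinarith
        have e5 : y ^ 2 + x - x ^ 2 ≤ 5 := by nlinarith
        nlinarith [mul_nonneg (by linarith : (0 : ℝ) ≤ 5 - (y ^ 2 + x - x ^ 2))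
          (by linarith : (0 : ℝ) ≤ -L), sq_nonneg x]
      · have e3 : x ^ 2 * L ≤ x ^ 2 * 4 := by gcongr
        have e4 : 0 ≤ (y ^ 2 + x) * L := by positivity
        nlinarith
    nlinarith
  have h4 := neg_abs_le (s * (2 * x - 1) * y * A)
  have h5 := le_abs_self (s * (2 * x - 1) * y * A)
  nlinarith

lemma ineq_large {x y δ A L s : ℝ} (hx : 0 < x)
    (hs : s ^ 2 = (1 / 10000 : ℝ) ^ 2) (hδ : 0.999 * (x + 0.41) - y / 100000 ≤ δ)
    (hA1 : 0.999 ≤ A) (hA2 : A ≤ 1.001)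
    (hL4 : 4 ≤ L) :
    0 ≤ δ ^ 2 * A ^ 2 - s * (2 * x - 1) * y * A +
      s ^ 2 * (δ ^ 2 * L ^ 2 + (y ^ 2 + x - x ^ 2) * L) := by
  set Z : ℝ := |s * y| with hZ
  have hZ0 : 0 ≤ Z := abs_nonneg _
  have hs1 : |s| = 1 / 10000 := by
    rw [← abs_of_pos (by norm_num : (0 : ℝ) < 1 / 10000)]
    exact (sq_eq_sq_iff_abs_eq_abs _ _).1 hs
  have hZy : Z = |y| / 10000 := by
    rw [hZ, abs_mul, hs1]; ring
  have hZ2 : Z ^ 2 = s ^ 2 * y ^ 2 := by rw [hZ, sq_abs]; ring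
  have hyZ : y / 100000 ≤ 0.1 * Z := by
    rw [hZy]
    have := le_abs_self y
    nlinarith
  have h2 : |s * (2 * x - 1) * y * A| ≤ Z * |2 * x - 1| * A := by
    have e : s * (2 * x - 1) * y * A = (s * y) * (2 * x - 1) * A := by ring
    rw [e, abs_mul, abs_mul, abs_of_pos (by linarith : (0 : ℝ) < A)]
  have h2' := le_abs_self (s * (2 * x - 1) * y * A)
  have hexp : s ^ 2 * (δ ^ 2 * L ^ 2 + (y ^ 2 + x - x ^ 2) * L) =
      Z ^ 2 * L + s ^ 2 * L * (δ ^ 2 * L + x - x ^ 2) := by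
    rw [hZ2]; ring
  rw [hexp]
  have hs0 : 0 ≤ s ^ 2 * L := by positivity
  have hZL : Z ^ 2 * 4 ≤ Z ^ 2 * L := by gcongr
  rcases le_or_gt (0.7 * (x + 0.41)) δ with hd | hd
  · -- AM-GM regime
    have hd0 : 0 < δ := by nlinarith
    have e1 : 4 * (δ * A) * Z ≤ δ ^ 2 * A ^ 2 + 4 * Z ^ 2 := by
      nlinarith [sq_nonneg (δ * A - 2 * Z)]
    have e2 : |2 * x - 1| ≤ 4 * δ := by
      rw [abs_le]; constructor <;> linarith
    have e3 : Z * |2 * x - 1| * A ≤ 4 * (δ * A) * Z := by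
      calc Z * |2 * x - 1| * A ≤ Z * (4 * δ) * A := by gcongr
        _ = 4 * (δ * A) * Z := by ring
    have e4 : 0 ≤ δ ^ 2 * L + x - x ^ 2 := by
      have e5 : (0.7 * x) ^ 2 ≤ δ ^ 2 := by
        apply pow_le_pow_left₀ (by positivity)
        linarith
      have e6 : (0.7 * x) ^ 2 * 4 ≤ δ ^ 2 * L := by gcongr
      nlinarith
    have e5 : 0 ≤ s ^ 2 * L * (δ ^ 2 * L + x - x ^ 2) := mul_nonneg hs0 e4
    linarith
  · -- large `Z`
    have hZx : 2.9 * x + 1.1 ≤ Z := by linarith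
    have e1 : |2 * x - 1| ≤ 2 * x + 1 := by
      rw [abs_le]; constructor <;> linarith
    have e2 : Z * |2 * x - 1| * A ≤ Z * (2 * x + 1) * 1.001 := by gcongr
    have e3 : -(x ^ 2) ≤ δ ^ 2 * L + x - x ^ 2 := by
      have : 0 ≤ δ ^ 2 * L := by positivity
      linarith
    have e4 : s ^ 2 * L * (-(x ^ 2)) ≤ s ^ 2 * L * (δ ^ 2 * L + x - x ^ 2) := by gcongr
    have e5 : s ^ 2 * L * x ^ 2 ≤ 0.1 * (Z ^ 2 * L) := by
      have e6 : x ^ 2 ≤ Z ^ 2 := by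
        apply pow_le_pow_left₀ hx.le
        linarith
      rw [hs]
      have e7 : x ^ 2 * L ≤ Z ^ 2 * L := by gcongr
      nlinarith [mul_nonneg (sq_nonneg x) (by linarith : (0 : ℝ) ≤ L)]
    have e6 : 0 ≤ δ ^ 2 * A ^ 2 := by positivity
    have e7 : Z * (2 * x + 1) * 1.001 ≤ Z * Z := by
      rw [mul_assoc]
      gcongr
      linarith
    nlinarith

end Pool.Agent.Helper64.SP
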