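import Pool.Agent.Helper64.SP.Coeff
import Pool.Agent.Helper64.SP.Gamma

open Complex MeasureTheory Metric Set Real Filter Topology ComplexConjugate

namespace Pool.Agent.Helper64.SP

/-- coefficient functions -/
noncomputable def cm (F : ℂ × ℂ → ℂ) (m : ℕ) (z : ℂ) : ℂ := co (fun w => F (z, w)) m

lemma slice_diff {F : ℂ × ℂ → ℂ} (hF : DifferentiableOn ℂ F BB) {z : ℂ} {R : ℝ}
    (hR : 0 ≤ R) (hR2 : ‖z‖ ^ 2 + R ^ 2 ≤ 1) :
    DifferentiableOn ℂ (fun w => F (z, w)) (ball 0 R) := by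
  have h1 : DifferentiableOn ℂ (fun w : ℂ => (z, w)) (ball 0 R) := by fun_prop
  refine hF.comp h1 ?_
  intro w hw
  have hw' : ‖w‖ < R := by simpa using hw
  show ‖z‖ ^ 2 + ‖w‖ ^ 2 < 1
  have : ‖w‖ ^ 2 < R ^ 2 := by
    have := norm_nonneg w
    nlinarith
  linarith

/-- radius of the slice -/
noncomputable def rr (z : ℂ) : ℝ := √(1 - ‖z‖ ^ 2)

lemma rr_pos {z : ℂ} (hz : z ∈ ball (0 : ℂ) 1) : 0 < rr z := by
  have hz1 : ‖z‖ < 1 := by simpa using hz
  unfold rr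
  have : 0 < 1 - ‖z‖ ^ 2 := by nlinarith [norm_nonneg z]
  positivity

lemma rr_sq {z : ℂ} (hz : z ∈ ball (0 : ℂ) 1) : rr z ^ 2 = 1 - ‖z‖ ^ 2 := by
  have hz1 : ‖z‖ < 1 := by simpa using hz
  unfold rr
  have : 0 ≤ 1 - ‖z‖ ^ 2 := by nlinarith [norm_nonneg z]
  exact Real.sq_sqrt this

lemma slice_diff' {F : ℂ × ℂ → ℂ} (hF : DifferentiableOn ℂ F BB) {z : ℂ}
    (hz : z ∈ ball (0 : ℂ) 1) :
    DifferentiableOn ℂ (fun w => F (z, w)) (ball 0 (rr z)) :=
  slice_diff hF (rr_pos hz).le (by rw [rr_sq hz]; linarith)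

lemma cm_diff {F : ℂ × ℂ → ℂ} (hF : DifferentiableOn ℂ F BB) (m : ℕ) :
    DifferentiableOn ℂ (cm F m) (ball 0 1) := by
  intro z₀ hz₀
  apply DifferentiableAt.differentiableWithinAt
  have hp := rr_pos hz₀
  have hs := rr_sq hz₀
  set r : ℝ := rr z₀ / 2 with hr
  have hr0 : 0 < r := by positivity
  have hlt : ‖z₀‖ ^ 2 + r ^ 2 < 1 := by
    have : r ^ 2 = rr z₀ ^ 2 / 4 := by rw [hr]; ring
    nlinarith
  have h1 := differentiableAt_cav hF hr0 (m : ℤ) hlt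
  refine h1.congr_of_eventuallyEq ?_
  have hopen : IsOpen {z : ℂ | ‖z‖ ^ 2 + r ^ 2 < 1} := isOpen_lt (by fun_prop) continuous_const
  filter_upwards [hopen.mem_nhds hlt] with z hz
  have hz' : ‖z‖ ^ 2 + r ^ 2 < 1 := hz
  have hzb : z ∈ ball (0 : ℂ) 1 := by
    have : ‖z‖ < 1 := by nlinarith [norm_nonneg z]
    simpa using this
  have h2 := slice_diff' hF hzb
  have h3 : r < rr z := by
    have h4 := rr_sq hzb
    have h5 := rr_pos hzb
    nlinarith
  unfold cm cav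
  rw [circleAverage_neg_pow h2 hr0 h3 m]

lemma cm_zero (F : ℂ × ℂ → ℂ) (z : ℂ) : cm F 0 z = F (z, 0) := by
  unfold cm; rw [co_zero]

/-- the curve `Γ` -/
def Gam (q : ℂ) : Set ℂ := {z | z ∈ ball (0 : ℂ) 1 ∧ √2 * (q * (z / (1 + z))).re = 1}

lemma RR_bigO {q z₀ : ℂ} (hz : z₀ ∈ Gam q) :
    ∃ K : ℝ, ∀ᶠ z in 𝓝 z₀, RR q z ≤ K * ‖z - z₀‖ ^ 2 := by
  have h0 := one_add_ne hz.1
  have h1 : DifferentiableAt ℂ (fun z : ℂ => ((√2 : ℝ) : ℂ) * (q * (z / (1 + z)))) z₀ := by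
    have : DifferentiableAt ℂ (fun z : ℂ => z / (1 + z)) z₀ := by
      apply DifferentiableAt.div (by fun_prop) (by fun_prop) h0
    fun_prop
  have h2 := h1.isBigO_sub
  obtain ⟨c, hc⟩ := h2.bound
  refine ⟨c ^ 2, ?_⟩
  filter_upwards [hc] with z hz2
  unfold RR
  have h3 : (1 - √2 * (q * (z / (1 + z))).re) ^ 2 ≤
      ‖((√2 : ℝ) : ℂ) * (q * (z / (1 + z))) - ((√2 : ℝ) : ℂ) * (q * (z₀ / (1 + z₀)))‖ ^ 2 := by
    have h4 : (((√2 : ℝ) : ℂ) * (q * (z / (1 + z))) -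
        ((√2 : ℝ) : ℂ) * (q * (z₀ / (1 + z₀)))).re = √2 * (q * (z / (1 + z))).re - 1 := by
      rw [Complex.sub_re, Complex.re_ofReal_mul, Complex.re_ofReal_mul, hz.2]
    have h5 := Complex.abs_re_le_norm (((√2 : ℝ) : ℂ) * (q * (z / (1 + z))) -
        ((√2 : ℝ) : ℂ) * (q * (z₀ / (1 + z₀))))
    rw [h4] at h5
    have h6 : (1 - √2 * (q * (z / (1 + z))).re) ^ 2 = |√2 * (q * (z / (1 + z))).re - 1| ^ 2 := by
      rw [sq_abs]; ring
    rw [h6]
    gcongr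
  calc (1 - √2 * (q * (z / (1 + z))).re) ^ 2 ≤
      ‖((√2 : ℝ) : ℂ) * (q * (z / (1 + z))) - ((√2 : ℝ) : ℂ) * (q * (z₀ / (1 + z₀)))‖ ^ 2 := h3
    _ ≤ (c * ‖z - z₀‖) ^ 2 := by gcongr
    _ = c ^ 2 * ‖z - z₀‖ ^ 2 := by ring

lemma RR_nonneg (q z : ℂ) : 0 ≤ RR q z := by unfold RR; positivity

lemma gam_accum {q : ℂ} (hq : ‖q‖ = 1) (him : 0 < q.im) :
    ∃ z₁ ∈ ball (0 : ℂ) 1, ∃ᶠ z in 𝓝[≠] z₁, z ∈ Gam q := by
  have hqq : q * conj q = 1 := by
    rw [Complex.mul_conj, Complex.normSq_eq_norm_sq, hq]; simp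
  have hq0 : q ≠ 0 := by
    intro h; rw [h] at hq; simp at hq
  have hcq0 : conj q ≠ 0 := by
    intro h; rw [h] at hqq; simp at hqq
  set Gt : ℝ → ℂ := fun τ => conj q * (((√2)⁻¹ : ℝ) + τ * I) with hGt
  set zt : ℝ → ℂ := fun τ => Gt τ / (1 - Gt τ) with hzt
  have hre : ∀ τ, (Gt τ).re = q.re * (√2)⁻¹ + q.im * τ := by
    intro τ
    simp only [hGt, Complex.mul_re, Complex.add_re, Complex.ofReal_re, Complex.mul_im,
      Complex.add_im, Complex.ofReal_im, Complex.I_re, Complex.I_im, Complex.conj_re,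
      Complex.conj_im]
    ring
  have hsqrt : 0 < √2 := by positivity
  have hs2 : √2 * (√2)⁻¹ = 1 := mul_inv_cancel₀ hsqrt.ne'
  set τ₁ : ℝ := -2 / q.im with hτ
  have hlt1 : (Gt τ₁).re < 1 / 2 := by
    rw [hre, hτ]
    have h1 : q.im * (-2 / q.im) = -2 := by field_simp
    have h2 : q.re ≤ 1 := (Complex.re_le_norm q).trans hq.le
    have h3 : (√2)⁻¹ ≤ 1 := by
      apply inv_le_one_of_one_le₀
      rw [Real.one_le_sqrt]; norm_num
    have h4 : 0 ≤ (√2)⁻¹ := by positivity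
    rw [h1]
    nlinarith
  have hne : ∀ τ, (Gt τ).re < 1 / 2 → 1 - Gt τ ≠ 0 := by
    intro τ h h0
    have : Gt τ = 1 := by linear_combination -h0
    rw [this] at h
    norm_num at h
  have hmem : ∀ τ, (Gt τ).re < 1 / 2 → zt τ ∈ Gam q := by
    intro τ h
    have h0 := hne τ h
    refine ⟨?_, ?_⟩
    · have h1 : ‖Gt τ‖ < ‖1 - Gt τ‖ := by
        have h2 : ‖Gt τ‖ ^ 2 < ‖1 - Gt τ‖ ^ 2 := by
          rw [← Complex.normSq_eq_norm_sq, ← Complex.normSq_eq_norm_sq, Complex.normSq_apply,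
            Complex.normSq_apply]
          simp only [Complex.sub_re, Complex.one_re, Complex.sub_im, Complex.one_im]
          nlinarith
        nlinarith [norm_nonneg (Gt τ), norm_nonneg (1 - Gt τ)]
      have h3 : ‖zt τ‖ < 1 := by
        rw [hzt]
        simp only
        rw [norm_div, div_lt_one (norm_pos_iff.2 h0)]
        exact h1
      simpa using h3
    · have h1 : 1 + zt τ = 1 / (1 - Gt τ) := by
        rw [hzt]; simp only; field_simp; ring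
      have h2 : zt τ / (1 + zt τ) = Gt τ := by
        rw [h1, hzt]; simp only; field_simp
      rw [h2, hGt]
      simp only
      rw [← mul_assoc, hqq, one_mul]
      simp only [Complex.add_re, Complex.ofReal_re, Complex.mul_re, Complex.ofReal_im,
        Complex.I_re, Complex.I_im]
      rw [← hs2]; ring
  have hcont : ContinuousAt zt τ₁ := by
    have h1 : ContinuousAt Gt τ₁ := by
      have : Continuous Gt := by rw [hGt]; fun_prop
      exact this.continuousAt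
    exact h1.div (h1.const_sub 1) (hne _ hlt1)
  have hinj : ∀ τ, (Gt τ).re < 1 / 2 → zt τ = zt τ₁ → τ = τ₁ := by
    intro τ h h1
    have h2 := hne τ h
    have h3 := hne _ hlt1
    have h4 : Gt τ = Gt τ₁ := by
      simp only [hzt] at h1
      rw [div_eq_div_iff h2 h3] at h1
      linear_combination h1
    simp only [hGt] at h4
    have h5 := mul_left_cancel₀ hcq0 h4
    have h6 := congrArg Complex.im h5
    simpa using h6
  have hev : ∀ᶠ τ in 𝓝 τ₁, (Gt τ).re < 1 / 2 := by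
    have h1 : Continuous fun τ => (Gt τ).re := by rw [hGt]; fun_prop
    exact h1.continuousAt.eventually_lt continuousAt_const hlt1
  refine ⟨zt τ₁, (hmem _ hlt1).1, ?_⟩
  have ht : Tendsto zt (𝓝[≠] τ₁) (𝓝[≠] (zt τ₁)) := by
    rw [tendsto_nhdsWithin_iff]
    refine ⟨hcont.tendsto.mono_left nhdsWithin_le_nhds, ?_⟩
    filter_upwards [hev.filter_mono nhdsWithin_le_nhds, self_mem_nhdsWithin] with τ h1 h2 h3
    exact h2 (hinj τ h1 h3)
  apply ht.frequently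
  apply Eventually.frequently
  filter_upwards [hev.filter_mono nhdsWithin_le_nhds] with τ h1
  exact hmem τ h1

lemma zero_of_gam {q : ℂ} (hq : ‖q‖ = 1) (him : 0 < q.im) {f : ℂ → ℂ}
    (hf : DifferentiableOn ℂ f (ball 0 1)) (h : ∀ z ∈ Gam q, f z = 0) :
    ∀ z ∈ ball (0 : ℂ) 1, f z = 0 := by
  obtain ⟨z₁, hz₁, hfr⟩ := gam_accum hq him
  have h1 : AnalyticOnNhd ℂ f (ball 0 1) := hf.analyticOnNhd isOpen_ball
  have h2 := h1.eqOn_zero_of_preconnected_of_frequently_eq_zero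
    (convex_ball (0 : ℂ) 1).isPreconnected hz₁ (hfr.mono fun z hz => h z hz)
  intro z hz
  exact h2 hz

end Pool.Agent.Helper64.SP
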