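import Pool.Agent.Helper64.SP.Euclid

open Complex MeasureTheory Metric Set Real Filter Topology ComplexConjugate

namespace Pool.Agent.Helper64.SP

noncomputable def KK (z : ℂ) : ℂ := z / (1 - z) ^ 2

noncomputable def KK' (z : ℂ) : ℂ := (1 + z) / (1 - z) ^ 3

lemma one_sub_ne {z : ℂ} (hz : z ∈ ball (0 : ℂ) 1) : 1 - z ≠ 0 := by
  have hz1 : ‖z‖ < 1 := by simpa using hz
  intro h
  have : z = 1 := by linear_combination -h
  rw [this] at hz1; simp at hz1

lemma KK_deriv {z : ℂ} (hz : z ∈ ball (0 : ℂ) 1) : HasDerivAt KK (KK' z) z := by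
  have h0 := one_sub_ne hz
  have h1 : HasDerivAt (fun z : ℂ => (1 - z) ^ 2) (2 * (1 - z) ^ 1 * (-1)) z := by
    have h2 : HasDerivAt (fun z : ℂ => 1 - z) (-1) z := (hasDerivAt_id z).const_sub 1
    exact h2.fun_pow 2
  have h2 := (hasDerivAt_id z).div h1 (pow_ne_zero 2 h0)
  refine h2.congr_deriv ?_
  unfold KK'
  simp only [id]
  field_simp
  ring

lemma KK'_ne {z : ℂ} (hz : z ∈ ball (0 : ℂ) 1) : KK' z ≠ 0 := by
  unfold KK'
  exact div_ne_zero (one_add_ne hz) (pow_ne_zero 3 (one_sub_ne hz))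

lemma KK_inj {z w : ℂ} (hz : z ∈ ball (0 : ℂ) 1) (hw : w ∈ ball (0 : ℂ) 1)
    (h : KK z = KK w) : z = w := by
  have h1 := one_sub_ne hz
  have h2 := one_sub_ne hw
  unfold KK at h
  rw [div_eq_div_iff (pow_ne_zero 2 h1) (pow_ne_zero 2 h2)] at h
  have h3 : (z - w) * (1 - z * w) = 0 := by linear_combination h
  rcases mul_eq_zero.1 h3 with h4 | h4
  · linear_combination h4
  · exfalso
    have h5 : z * w = 1 := by linear_combination -h4
    have hz1 : ‖z‖ < 1 := by simpa using hz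
    have hw1 : ‖w‖ < 1 := by simpa using hw
    have h6 : ‖z‖ * ‖w‖ = 1 := by rw [← norm_mul, h5, norm_one]
    nlinarith [norm_nonneg z, norm_nonneg w]

lemma KK_div {z : ℂ} (hz : z ∈ ball (0 : ℂ) 1) : KK z / KK' z = z * pp z := by
  have h1 := one_sub_ne hz
  have h2 := one_add_ne hz
  unfold KK KK' pp
  field_simp

/-- exponents -/
noncomputable def al (q : ℂ) : ℂ := q ^ 2 / 2 - 2 * (√2 : ℝ) * q

noncomputable def be (q : ℂ) : ℂ := q ^ 2 / 2

noncomputable def V0 (q z : ℂ) : ℂ :=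
  Complex.exp (al q * Complex.log (1 - z) + be q * Complex.log (1 + z))

noncomputable def Vs (q : ℂ) (s : ℝ) (z : ℂ) : ℂ := V0 q z * WW s z

lemma V0_ne (q z : ℂ) : V0 q z ≠ 0 := Complex.exp_ne_zero _

lemma slit_add {z : ℂ} (hz : z ∈ ball (0 : ℂ) 1) : 1 + z ∈ Complex.slitPlane := by
  have hz1 : ‖z‖ < 1 := by simpa using hz
  left
  have h1 := Complex.abs_re_le_norm z
  have h2 := (abs_le.1 h1).1
  simp only [Complex.add_re, Complex.one_re]
  linarith

lemma slit_sub {z : ℂ} (hz : z ∈ ball (0 : ℂ) 1) : 1 - z ∈ Complex.slitPlane := by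
  have hz1 : ‖z‖ < 1 := by simpa using hz
  left
  have h1 := Complex.abs_re_le_norm z
  have h2 := (abs_le.1 h1).2
  simp only [Complex.sub_re, Complex.one_re]
  linarith

lemma log_add_deriv {z : ℂ} (hz : z ∈ ball (0 : ℂ) 1) :
    HasDerivAt (fun z : ℂ => Complex.log (1 + z)) (1 / (1 + z)) z := by
  have h2 : HasDerivAt (fun z : ℂ => 1 + z) 1 z := (hasDerivAt_id z).const_add 1
  exact h2.clog (slit_add hz)

lemma log_sub_deriv {z : ℂ} (hz : z ∈ ball (0 : ℂ) 1) :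
    HasDerivAt (fun z : ℂ => Complex.log (1 - z)) (-1 / (1 - z)) z := by
  have h2 : HasDerivAt (fun z : ℂ => 1 - z) (-1) z := (hasDerivAt_id z).const_sub 1
  exact h2.clog (slit_sub hz)

lemma V0_deriv (q : ℂ) {z : ℂ} (hz : z ∈ ball (0 : ℂ) 1) :
    HasDerivAt (V0 q) (V0 q z * (al q * (-1 / (1 - z)) + be q * (1 / (1 + z)))) z := by
  have h1 := ((log_sub_deriv hz).const_mul (al q)).add ((log_add_deriv hz).const_mul (be q))
  exact h1.cexp

lemma WW_deriv (s : ℝ) {z : ℂ} (hz : z ∈ ball (0 : ℂ) 1) :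
    HasDerivAt (WW s) (s * I * (1 / (1 + z))) z := by
  exact ((log_add_deriv hz).const_mul (s * I : ℂ)).const_add 1

noncomputable def Vs' (q : ℂ) (s : ℝ) (z : ℂ) : ℂ :=
  V0 q z * (al q * (-1 / (1 - z)) + be q * (1 / (1 + z))) * WW s z +
    V0 q z * (s * I * (1 / (1 + z)))

lemma Vs_deriv (q : ℂ) (s : ℝ) {z : ℂ} (hz : z ∈ ball (0 : ℂ) 1) :
    HasDerivAt (Vs q s) (Vs' q s z) z := (V0_deriv q hz).mul (WW_deriv s hz)

lemma Vs_ne (q : ℂ) {s : ℝ} (hs : Adm s) (z : ℂ) : Vs q s z ≠ 0 :=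
  mul_ne_zero (V0_ne q z) (WW_ne hs z)

lemma c_formula (q : ℂ) {s : ℝ} (hs : Adm s) {z : ℂ} (hz : z ∈ ball (0 : ℂ) 1) :
    1 - (Vs' q s z / Vs q s z) * (KK z / KK' z) = cs q s z := by
  rw [KK_div hz]
  have h1 := one_sub_ne hz
  have h2 := one_add_ne hz
  have h3 := V0_ne q z
  have h4 := WW_ne hs z
  unfold Vs' Vs cs cc pp al be
  field_simp
  ring

/-- the class of normalized starlike maps -/
def SS : Set (E2 → E2) := {g |
        DifferentiableOn ℂ g (Metric.ball (0 : E2) 1) ∧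
        Set.InjOn g (Metric.ball (0 : E2) 1) ∧
        g 0 = 0 ∧
        fderiv ℂ g 0 = ContinuousLinearMap.id ℂ E2 ∧
        (∀ z ∈ Metric.ball (0 : E2) 1,
          ∃ e : E2 ≃L[ℂ] E2, (e : E2 →L[ℂ] E2) = fderiv ℂ g z) ∧
        (∀ z ∈ Metric.ball (0 : E2) 1, z ≠ 0 →
          0 < (inner ℂ z ((fderiv ℂ g z).inverse
            ((ContinuousLinearMap.id ℂ E2) (g z)))).re) ∧
        (∀ z, z ∉ Metric.ball (0 : E2) 1 → g z = 0)}

/-- the class `N_I` -/
def NN : Set (E2 → E2) := {h |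
        DifferentiableOn ℂ h (Metric.ball (0 : E2) 1) ∧
        h 0 = 0 ∧
        fderiv ℂ h 0 = ContinuousLinearMap.id ℂ E2 ∧
        (∀ z ∈ Metric.ball (0 : E2) 1, z ≠ 0 → 0 < (inner ℂ z (h z)).re) ∧
        (∀ z, z ∉ Metric.ball (0 : E2) 1 → h z = 0)}

/-- the maps `f_s` -/
noncomputable def ff (q : ℂ) (s : ℝ) : E2 → E2 := T KK (Vs q s)

lemma zero_mem : (0 : E2) ∈ ball (0 : E2) 1 := by simp

lemma ff_inverse (q : ℂ) {s : ℝ} (hs : Adm s) {z : E2} (hz : z ∈ ball (0 : E2) 1) :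
    (fderiv ℂ (ff q s) z).inverse (ff q s z) =
      P.symm (z 0 * pp (z 0), z 1 * cs q s (z 0)) := by
  have h0 := fst_mem_ball hz
  have h1 := T_inverse hz (KK_deriv h0) (Vs_deriv q s h0) (KK'_ne h0) (Vs_ne q hs (z 0))
  rw [c_formula q hs h0, KK_div h0] at h1
  exact h1

lemma inner_P_symm (z : E2) (a b : ℂ) :
    (inner ℂ z (P.symm (z 0 * a, z 1 * b))).re = ‖z 0‖ ^ 2 * a.re + ‖z 1‖ ^ 2 * b.re := by
  rw [inner_E, P_symm_zero, P_symm_one]
  simp only
  have h1 : ∀ w : ℂ, conj w * w = ((‖w‖ ^ 2 : ℝ) : ℂ) := by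
    intro w
    rw [mul_comm, Complex.mul_conj, Complex.normSq_eq_norm_sq]
  rw [← mul_assoc, ← mul_assoc, h1, h1, Complex.add_re, Complex.re_ofReal_mul,
    Complex.re_ofReal_mul]

lemma ne_zero_coord {z : E2} (hz : z ≠ 0) : z 0 ≠ 0 ∨ z 1 ≠ 0 := by
  by_contra h
  push Not at h
  apply hz
  have h2 : P z = 0 := by rw [P_apply, h.1, h.2]; rfl
  exact (map_eq_zero_iff P P.injective).1 h2

lemma ff_fderiv (q : ℂ) {s : ℝ} (hs : Adm s) {z : E2} (hz : z ∈ ball (0 : E2) 1) :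
    HasFDerivAt (ff q s)
      (((P.trans (eqv (KK' (z 0)) (Vs q s (z 0)) (z 1) (Vs' q s (z 0)) (KK'_ne (fst_mem_ball hz))
        (Vs_ne q hs (z 0)))).trans P.symm : E2 ≃L[ℂ] E2) : E2 →L[ℂ] E2) z := by
  have h0 := fst_mem_ball hz
  exact T_fderiv hz (KK_deriv h0) (Vs_deriv q s h0) (KK'_ne h0) (Vs_ne q hs (z 0))

lemma ff_apply (q : ℂ) (s : ℝ) {z : E2} (hz : z ∈ ball (0 : E2) 1) :
    ff q s z = P.symm (KK (z 0), z 1 * Vs q s (z 0)) := T_apply hz

lemma ff_out (q : ℂ) (s : ℝ) {z : E2} (hz : z ∉ ball (0 : E2) 1) : ff q s z = 0 := by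
  unfold ff T
  rw [indicator_of_notMem hz]

lemma ff_mem {q : ℂ} (hq : GoodQ q) {s : ℝ} (hs : Adm s) : ff q s ∈ SS := by
  refine ⟨?_, ?_, ?_, ?_, ?_, ?_, ?_⟩
  · intro z hz
    exact (ff_fderiv q hs hz).differentiableAt.differentiableWithinAt
  · intro z hz w hw h
    rw [ff_apply q s hz, ff_apply q s hw] at h
    have h1 := P.symm.injective h
    simp only [Prod.mk.injEq] at h1
    have h2 := KK_inj (fst_mem_ball hz) (fst_mem_ball hw) h1.1
    have h3 := h1.2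
    rw [h2] at h3
    have h4 := mul_right_cancel₀ (Vs_ne q hs (w 0)) h3
    apply P.injective
    rw [P_apply, P_apply, h2, h4]
  · rw [ff_apply q s zero_mem]
    have : (KK ((0 : E2) 0), (0 : E2) 1 * Vs q s ((0 : E2) 0)) = (0 : ℂ × ℂ) := by
      simp [KK]
    rw [this, map_zero]
  · rw [(ff_fderiv q hs zero_mem).fderiv]
    ext1 v
    simp only [ContinuousLinearEquiv.coe_coe, ContinuousLinearEquiv.trans_apply,
      ContinuousLinearMap.id_apply]
    rw [ContinuousLinearEquiv.symm_apply_eq, eqv_apply]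
    have h1 : KK' ((0 : E2) 0) = 1 := by simp [KK']
    have h2 : Vs q s ((0 : E2) 0) = 1 := by simp [Vs, V0, WW]
    have h3 : (0 : E2) 1 = 0 := rfl
    rw [h1, h2, h3]
    simp
  · intro z hz
    exact ⟨_, (ff_fderiv q hs hz).fderiv.symm⟩
  · intro z hz hne
    rw [ContinuousLinearMap.id_apply, ff_inverse q hs hz, inner_P_symm]
    exact pos_re hq hs ((mem_ball_iff z).1 hz) (ne_zero_coord hne)
  · intro z hz
    exact ff_out q s hz

/-- `h⁰` -/
noncomputable def hh (q : ℂ) : E2 → E2 :=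
  (ball (0 : E2) 1).indicator fun z => P.symm (z 0 * pp (z 0), z 1 * cc q (z 0))

lemma adm_zero : Adm 0 := Or.inl rfl

lemma cs_zero (q z : ℂ) : cs q 0 z = cc q z := by
  unfold cs; simp

lemma h_of_ff (q : ℂ) : (ball (0 : E2) 1).indicator
    (fun z => (fderiv ℂ (ff q 0) z).inverse ((ContinuousLinearMap.id ℂ E2) (ff q 0 z))) =
      hh q := by
  funext z
  unfold hh
  by_cases hz : z ∈ ball (0 : E2) 1
  · rw [indicator_of_mem hz, indicator_of_mem hz, ContinuousLinearMap.id_apply,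
      ff_inverse q adm_zero hz, cs_zero]
  · rw [indicator_of_notMem hz, indicator_of_notMem hz]

lemma hh_apply (q : ℂ) {z : E2} (hz : z ∈ ball (0 : E2) 1) :
    hh q z = P.symm (z 0 * pp (z 0), z 1 * cc q (z 0)) := by
  unfold hh
  rw [indicator_of_mem hz]

lemma pp_diff : DifferentiableOn ℂ pp (ball 0 1) := by
  intro z hz
  have h := one_add_ne hz
  apply DifferentiableAt.differentiableWithinAt
  unfold pp
  apply DifferentiableAt.div (by fun_prop) (by fun_prop) h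

lemma cc_diff (q : ℂ) : DifferentiableOn ℂ (cc q) (ball 0 1) := by
  intro z hz
  have h := one_add_ne hz
  apply DifferentiableAt.differentiableWithinAt
  have h1 : DifferentiableAt ℂ (fun z : ℂ => z / (1 + z)) z :=
    DifferentiableAt.div (by fun_prop) (by fun_prop) h
  unfold cc
  fun_prop

lemma ff_zero_mid (q : ℂ) (s : ℝ) (z : E2) :
    ff q 0 z = (1 / 2 : ℝ) • ff q s z + (1 / 2 : ℝ) • ff q (-s) z := by
  by_cases hz : z ∈ ball (0 : E2) 1
  · rw [ff_apply q 0 hz, ff_apply q s hz, ff_apply q (-s) hz]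
    apply P.injective
    have h1 : ∀ (r : ℝ) (p : ℂ × ℂ), P (r • P.symm p) = r • p := by
      intro r p
      have h2 : r • P.symm p = (r : ℂ) • P.symm p := by
        exact RCLike.real_smul_eq_coe_smul (K := ℂ) r (P.symm p)
      rw [h2, map_smul, P.apply_symm_apply]
      exact (RCLike.real_smul_eq_coe_smul (K := ℂ) r p).symm
    rw [map_add, h1, h1, P.apply_symm_apply]
    ext
    · simp only [Prod.smul_mk, Prod.mk_add_mk]
      rw [← add_smul]; norm_num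
    · simp only [Prod.smul_mk, Prod.mk_add_mk, Vs, WW, Complex.real_smul]
      push_cast
      ring
  · rw [ff_out q 0 hz, ff_out q s hz, ff_out q (-s) hz]
    simp

lemma ff_ne (q : ℂ) {s : ℝ} (hs : s ≠ 0) : ff q s ≠ ff q 0 := by
  intro h
  set z : E2 := P.symm ((1 / 2 : ℂ), (1 / 2 : ℂ)) with hz
  have hzb : z ∈ ball (0 : E2) 1 := by
    rw [hz, P_symm_mem]
    show ‖(1 / 2 : ℂ)‖ ^ 2 + ‖(1 / 2 : ℂ)‖ ^ 2 < 1
    norm_num
  have h1 := congrFun h z
  rw [ff_apply q s hzb, ff_apply q 0 hzb] at h1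
  have h2 := P.symm.injective h1
  simp only [Prod.mk.injEq] at h2
  have h3 := h2.2
  have hz0 : z 0 = 1 / 2 := P_symm_zero _
  have hz1 : z 1 = 1 / 2 := P_symm_one _
  rw [hz0, hz1] at h3
  have h4 := mul_left_cancel₀ (by norm_num : (1 / 2 : ℂ) ≠ 0) h3
  unfold Vs at h4
  have h5 := mul_left_cancel₀ (V0_ne q _) h4
  unfold WW at h5
  have h6 : (s : ℂ) * I * Complex.log (1 + 1 / 2) = 0 := by
    simpa using h5
  have h7 : Complex.log (1 + 1 / 2) ≠ 0 := by
    have h8 : Complex.log (1 + 1 / 2) = ((Real.log (3 / 2) : ℝ) : ℂ) := by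
      rw [Complex.ofReal_log (by norm_num)]
      congr 1
      push_cast
      norm_num
    rw [h8]
    have h9 : 0 < Real.log (3 / 2) := Real.log_pos (by norm_num)
    exact_mod_cast h9.ne'
  have h10 : (s : ℂ) ≠ 0 := by exact_mod_cast hs
  exact (mul_ne_zero (mul_ne_zero h10 Complex.I_ne_zero) h7) h6

end Pool.Agent.Helper64.SP
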