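import Pool.Agent.Helper64.SP.Slice

open Complex MeasureTheory Metric Set Real Filter Topology ComplexConjugate

namespace Pool.Agent.Helper64.SP

/-- The radius used on the circle `|z| = ρ`. -/
noncomputable def rad (ρ : ℝ) : ℝ := √(1 - ρ ^ 2) / 2

lemma rad_pos {ρ : ℝ} (h0 : 0 ≤ ρ) (h : ρ < 1) : 0 < rad ρ := by
  unfold rad
  have : 0 < 1 - ρ ^ 2 := by nlinarith
  positivity

lemma rad_sq {ρ : ℝ} (h0 : 0 ≤ ρ) (h : ρ < 1) : 1 - ρ ^ 2 = 4 * rad ρ ^ 2 := by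
  unfold rad
  have : 0 ≤ 1 - ρ ^ 2 := by nlinarith
  rw [div_pow, Real.sq_sqrt this]; ring

lemma rad_tendsto : Tendsto rad (𝓝[<] 1) (𝓝 0) := by
  have h : Tendsto rad (𝓝 1) (𝓝 (rad 1)) := by
    apply ContinuousAt.tendsto
    unfold rad
    fun_prop
  have h1 : rad 1 = 0 := by simp [rad]
  rw [h1] at h
  exact h.mono_left nhdsWithin_le_nhds

lemma le_at_zero {f g : ℝ → ℝ} (hf : ContinuousAt f 0) (hg : ContinuousAt g 0)
    (h : ∀ s ∈ Ioo (0 : ℝ) (1 / 2), f s ≤ g s) : f 0 ≤ g 0 := by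
  have h1 : Tendsto f (𝓝[>] 0) (𝓝 (f 0)) := hf.tendsto.mono_left nhdsWithin_le_nhds
  have h2 : Tendsto g (𝓝[>] 0) (𝓝 (g 0)) := hg.tendsto.mono_left nhdsWithin_le_nhds
  refine le_of_tendsto_of_tendsto h1 h2 ?_
  filter_upwards [Ioo_mem_nhdsGT (by norm_num : (0 : ℝ) < 1 / 2)] with s hs
  exact h s hs

section
variable {a b c2 : ℂ → ℂ} {C : ℝ}

lemma mode_one_zero (ha : DifferentiableOn ℂ a (ball 0 1))
    (hb : DifferentiableOn ℂ b (ball 0 1)) (hc : DifferentiableOn ℂ c2 (ball 0 1))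
    (a0 : a 0 = 0) (b0 : b 0 = 0) (b1 : deriv b 0 = 0) (hC : 0 ≤ C)
    (h : ∀ z ∈ ball (0 : ℂ) 1, ∀ r : ℝ, 0 < r → ‖z‖ ^ 2 + r ^ 2 < 1 →
      ‖conj z * a z + (r : ℂ) ^ 2 * c2 z + conj (b z)‖ * ‖1 + z‖ ^ 2
        ≤ C * ((1 - ‖z‖ ^ 2) + 12 * r ^ 2) / r) :
    ∀ z ∈ ball (0 : ℂ) 1, b z = 0 := by
  obtain ⟨α, hα, hα1, hα2⟩ := exists_factor ha a0
  obtain ⟨b', hb', hb'1, hb'2⟩ := exists_factor hb b0
  obtain ⟨β, hβ, hβ1, hβ2⟩ := exists_factor hb' (by rw [hb'2, b1])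
  have hbβ : ∀ z, b z = z ^ 2 * β z := by
    intro z; rw [hb'1, hβ1]; ring
  set HP : ℂ → ℂ := fun z => α z * (1 + z) ^ 2 with hHP
  set HQ : ℂ → ℂ := fun z => β z * (1 + z) ^ 2 with hHQ
  set HD : ℂ → ℂ := fun z => c2 z * (1 + z) ^ 2 with hHD
  have hHPd : DifferentiableOn ℂ HP (ball 0 1) := hα.mul (by fun_prop)
  have hHQd : DifferentiableOn ℂ HQ (ball 0 1) := hβ.mul (by fun_prop)
  have hHDd : DifferentiableOn ℂ HD (ball 0 1) := hc.mul (by fun_prop)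
  -- value on circles
  have hX : ∀ ρ : ℝ, 0 < ρ → ρ < 1 → ∀ z ∈ sphere (0 : ℂ) ρ,
      conj z * a z + (rad ρ : ℂ) ^ 2 * c2 z + conj (b z) =
        (ρ : ℂ) ^ 2 * α z + (rad ρ : ℂ) ^ 2 * c2 z + conj (z ^ 2 * β z) := by
    intro ρ hρ0 hρ1 z hz
    rw [hα1 z, hbβ z, conj_of_sphere hρ0 hz]
    have := ne_zero_of_sphere hρ0 hz
    field_simp
  have hXb : ∀ ρ : ℝ, 0 < ρ → ρ < 1 → ∀ z ∈ sphere (0 : ℂ) ρ,
      ‖(ρ : ℂ) ^ 2 * α z + (rad ρ : ℂ) ^ 2 * c2 z + conj (z ^ 2 * β z)‖ * ‖1 + z‖ ^ 2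
        ≤ 16 * C * rad ρ := by
    intro ρ hρ0 hρ1 z hz
    rw [← hX ρ hρ0 hρ1 z hz]
    have hzn := norm_of_sphere hz
    have hr := rad_pos hρ0.le hρ1
    have hr2 := rad_sq hρ0.le hρ1
    have h1 := h z (by simp [hzn, hρ1]) (rad ρ) hr (by rw [hzn]; nlinarith)
    rw [hzn, hr2] at h1
    refine h1.trans (le_of_eq ?_)
    field_simp
    ring
  -- (1)
  have hcoP : ∀ j : ℕ, 1 ≤ j → co HP j = 0 := by
    intro j hj
    refine eq_zero_of_bound
      (F := fun ρ => (16 * C * rad ρ / ρ ^ j + rad ρ ^ 2 * ‖co HD j‖) / ρ ^ 2) ?_ ?_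
    · have h5 : Tendsto (fun ρ : ℝ => (16 * C * rad ρ / ρ ^ j + rad ρ ^ 2 * ‖co HD j‖) / ρ ^ 2)
          (𝓝[<] 1) (𝓝 ((16 * C * 0 / 1 ^ j + 0 ^ 2 * ‖co HD j‖) / 1 ^ 2)) := by
        have hid : Tendsto (fun ρ : ℝ => ρ) (𝓝[<] 1) (𝓝 1) := tendsto_id.mono_left nhdsWithin_le_nhds
        refine Tendsto.div (Tendsto.add (Tendsto.div ?_ (hid.pow j) (by simp)) ?_) (hid.pow 2)
          (by simp)
        · exact rad_tendsto.const_mul _
        · exact (rad_tendsto.pow 2).mul_const _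
      simpa using h5
    · rintro ρ ⟨hρ0, hρ1⟩
      have hr := rad_pos hρ0.le hρ1
      have e1 := circleAverage_neg_pow hHPd hρ0 hρ1 j
      have e1D := circleAverage_neg_pow hHDd hρ0 hρ1 j
      have e2 := conj_average hβ hρ0 hρ1 j 2 hj (by norm_num)
      have hj2 : j + 2 - 2 = j := by omega
      rw [hj2] at e2
      have i1 := (integrable_aux hα hρ0 hρ1 (-((j : ℕ) : ℤ))).1
      have i2 := (integrable_aux hc hρ0 hρ1 (-((j : ℕ) : ℤ))).1
      have hz2 : DifferentiableOn ℂ (fun z => z ^ 2 * β z) (ball 0 1) :=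
        DifferentiableOn.mul (by fun_prop) hβ
      have i3 := (integrable_aux hz2 hρ0 hρ1 (-((j : ℕ) : ℤ))).2
      have i1' : CircleIntegrable (fun z => (ρ : ℂ) ^ 2 * (α z * ((1 + z) ^ 2 *
        z ^ (-((j : ℕ) : ℤ))))) 0 ρ := i1.const_fun_smul (a := (ρ : ℂ) ^ 2)
      have i2' : CircleIntegrable (fun z => (rad ρ : ℂ) ^ 2 * (c2 z * ((1 + z) ^ 2 *
        z ^ (-((j : ℕ) : ℤ))))) 0 ρ := i2.const_fun_smul (a := (rad ρ : ℂ) ^ 2)
      have i12 : CircleIntegrable (fun z => (ρ : ℂ) ^ 2 * (α z * ((1 + z) ^ 2 *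
        z ^ (-((j : ℕ) : ℤ)))) + (rad ρ : ℂ) ^ 2 * (c2 z * ((1 + z) ^ 2 *
        z ^ (-((j : ℕ) : ℤ))))) 0 ρ := i1'.add i2'
      have e3 : circleAverage (fun z => ((ρ : ℂ) ^ 2 * (α z * ((1 + z) ^ 2 *
          z ^ (-((j : ℕ) : ℤ)))) + (rad ρ : ℂ) ^ 2 * (c2 z * ((1 + z) ^ 2 *
          z ^ (-((j : ℕ) : ℤ))))) + conj (z ^ 2 * β z) * ((1 + z) ^ 2 *
          z ^ (-((j : ℕ) : ℤ)))) 0 ρ = (ρ : ℂ) ^ 2 * co HP j + (rad ρ : ℂ) ^ 2 * co HD j := by
        rw [circleAverage_fun_add i12 i3, circleAverage_fun_add i1' i2', circleAverage_const_mul,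
          circleAverage_const_mul, e2, add_zero, ← e1, ← e1D]
        congr 2
        · apply circleAverage_congr_sphere
          intro z _; simp only [hHP]; ring
        · congr 1
          funext z; simp only [hHD]; ring
      have hbd : ‖(ρ : ℂ) ^ 2 * co HP j + (rad ρ : ℂ) ^ 2 * co HD j‖ ≤ 16 * C * rad ρ / ρ ^ j := by
        rw [← e3]
        apply norm_circleAverage_le hρ0.le
        intro z hz
        have hzn := norm_of_sphere hz
        have h7 := hXb ρ hρ0 hρ1 z hz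
        have : (ρ : ℂ) ^ 2 * (α z * ((1 + z) ^ 2 * z ^ (-((j : ℕ) : ℤ)))) +
          (rad ρ : ℂ) ^ 2 * (c2 z * ((1 + z) ^ 2 * z ^ (-((j : ℕ) : ℤ)))) +
          conj (z ^ 2 * β z) * ((1 + z) ^ 2 * z ^ (-((j : ℕ) : ℤ))) =
          ((ρ : ℂ) ^ 2 * α z + (rad ρ : ℂ) ^ 2 * c2 z + conj (z ^ 2 * β z)) *
            (1 + z) ^ 2 * z ^ (-((j : ℕ) : ℤ)) := by ring
        rw [this, norm_mul, norm_mul, norm_pow, norm_zpow, hzn, zpow_neg, zpow_natCast,
          div_eq_mul_inv]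
        gcongr
      rw [le_div_iff₀ (by positivity)]
      have h8 : ‖(ρ : ℂ) ^ 2 * co HP j‖ ≤
          ‖(ρ : ℂ) ^ 2 * co HP j + (rad ρ : ℂ) ^ 2 * co HD j‖ + ‖(rad ρ : ℂ) ^ 2 * co HD j‖ := by
        have := norm_sub_le ((ρ : ℂ) ^ 2 * co HP j + (rad ρ : ℂ) ^ 2 * co HD j)
          ((rad ρ : ℂ) ^ 2 * co HD j)
        rwa [add_sub_cancel_right] at this
      rw [norm_mul, norm_pow, Complex.norm_real, Real.norm_of_nonneg hρ0.le] at h8
      have h9 : ‖(rad ρ : ℂ) ^ 2 * co HD j‖ = rad ρ ^ 2 * ‖co HD j‖ := by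
        rw [norm_mul, norm_pow, Complex.norm_real, Real.norm_of_nonneg hr.le]
      rw [h9] at h8
      linarith
  -- (2)
  have hcoQ : ∀ j : ℕ, 1 ≤ j → co HQ j = 0 := by
    intro j hj
    refine eq_zero_of_bound
      (F := fun ρ => 16 * C * rad ρ / ρ ^ (j + 2)) ?_ ?_
    · have h5 : Tendsto (fun ρ : ℝ => 16 * C * rad ρ / ρ ^ (j + 2))
          (𝓝[<] 1) (𝓝 (16 * C * 0 / 1 ^ (j + 2))) := by
        have hid : Tendsto (fun ρ : ℝ => ρ) (𝓝[<] 1) (𝓝 1) := tendsto_id.mono_left nhdsWithin_le_nhds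
        refine Tendsto.div (rad_tendsto.const_mul _) (hid.pow (j + 2)) (by simp)
      simpa using h5
    · rintro ρ ⟨hρ0, hρ1⟩
      have hr := rad_pos hρ0.le hρ1
      have e1 := circleAverage_neg_pow hHQd hρ0 hρ1 j
      have e2 := conj_average hα hρ0 hρ1 j 0 hj (by norm_num)
      have e2D := conj_average hc hρ0 hρ1 j 0 hj (by norm_num)
      have hj2 : j + 2 - 0 = j + 2 := by omega
      rw [hj2] at e2 e2D
      simp only [pow_zero, one_mul] at e2 e2D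
      have i1 := (integrable_aux hα hρ0 hρ1 (-((j + 2 : ℕ) : ℤ))).2
      have i2 := (integrable_aux hc hρ0 hρ1 (-((j + 2 : ℕ) : ℤ))).2
      have hz2 : DifferentiableOn ℂ (fun z => z ^ 2 * β z) (ball 0 1) :=
        DifferentiableOn.mul (by fun_prop) hβ
      have i3 := (integrable_aux hz2 hρ0 hρ1 (-((j + 2 : ℕ) : ℤ))).1
      have i1' : CircleIntegrable (fun z => (ρ : ℂ) ^ 2 * (conj (α z) * ((1 + z) ^ 2 *
        z ^ (-((j + 2 : ℕ) : ℤ))))) 0 ρ := i1.const_fun_smul (a := (ρ : ℂ) ^ 2)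
      have i2' : CircleIntegrable (fun z => (rad ρ : ℂ) ^ 2 * (conj (c2 z) * ((1 + z) ^ 2 *
        z ^ (-((j + 2 : ℕ) : ℤ))))) 0 ρ := i2.const_fun_smul (a := (rad ρ : ℂ) ^ 2)
      have i12 : CircleIntegrable (fun z => (ρ : ℂ) ^ 2 * (conj (α z) * ((1 + z) ^ 2 *
        z ^ (-((j + 2 : ℕ) : ℤ)))) + (rad ρ : ℂ) ^ 2 * (conj (c2 z) * ((1 + z) ^ 2 *
        z ^ (-((j + 2 : ℕ) : ℤ))))) 0 ρ := i1'.add i2'
      have e3 : circleAverage (fun z => ((ρ : ℂ) ^ 2 * (conj (α z) * ((1 + z) ^ 2 *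
          z ^ (-((j + 2 : ℕ) : ℤ)))) + (rad ρ : ℂ) ^ 2 * (conj (c2 z) * ((1 + z) ^ 2 *
          z ^ (-((j + 2 : ℕ) : ℤ))))) + (z ^ 2 * β z) * ((1 + z) ^ 2 *
          z ^ (-((j + 2 : ℕ) : ℤ)))) 0 ρ = co HQ j := by
        rw [circleAverage_fun_add i12 i3, circleAverage_fun_add i1' i2', circleAverage_const_mul,
          circleAverage_const_mul, e2, e2D, mul_zero, mul_zero, add_zero, zero_add, ← e1]
        apply circleAverage_congr_sphere
        intro z hz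
        rw [abs_of_pos hρ0] at hz
        have hz0 := ne_zero_of_sphere hρ0 hz
        simp only [hHQ]
        have : z ^ (-((j : ℕ) : ℤ)) = z ^ 2 * z ^ (-((j + 2 : ℕ) : ℤ)) := by
          rw [zpow_neg, zpow_neg, zpow_natCast, zpow_natCast, pow_add]
          field_simp
        rw [this]; ring
      rw [← e3]
      apply norm_circleAverage_le hρ0.le
      intro z hz
      have hzn := norm_of_sphere hz
      have h7 := hXb ρ hρ0 hρ1 z hz
      have h8 : ‖(ρ : ℂ) ^ 2 * α z + (rad ρ : ℂ) ^ 2 * c2 z + conj (z ^ 2 * β z)‖ =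
          ‖(ρ : ℂ) ^ 2 * conj (α z) + (rad ρ : ℂ) ^ 2 * conj (c2 z) + z ^ 2 * β z‖ := by
        rw [← Complex.norm_conj]
        congr 1
        simp
      rw [h8] at h7
      have : (ρ : ℂ) ^ 2 * (conj (α z) * ((1 + z) ^ 2 * z ^ (-((j + 2 : ℕ) : ℤ)))) +
        (rad ρ : ℂ) ^ 2 * (conj (c2 z) * ((1 + z) ^ 2 * z ^ (-((j + 2 : ℕ) : ℤ)))) +
        (z ^ 2 * β z) * ((1 + z) ^ 2 * z ^ (-((j + 2 : ℕ) : ℤ))) =
        ((ρ : ℂ) ^ 2 * conj (α z) + (rad ρ : ℂ) ^ 2 * conj (c2 z) + z ^ 2 * β z) *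
          (1 + z) ^ 2 * z ^ (-((j + 2 : ℕ) : ℤ)) := by ring
      rw [this, norm_mul, norm_mul, norm_pow, norm_zpow, hzn, zpow_neg, zpow_natCast,
        div_eq_mul_inv]
      gcongr
  have hconstP := const_of_co hHPd hcoP
  have hconstQ := const_of_co hHQd hcoQ
  set A : ℂ := HP 0 with hA
  set B : ℂ := HQ 0 with hB
  have hαA : ∀ z ∈ ball (0 : ℂ) 1, α z * (1 + z) ^ 2 = A := fun z hz => hconstP z hz
  have hβB : ∀ z ∈ ball (0 : ℂ) 1, β z * (1 + z) ^ 2 = B := fun z hz => hconstQ z hz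
  clear_value A B
  -- (3)
  have hkey : ∀ z ∈ ball (0 : ℂ) 1,
      ‖((‖z‖ ^ 2 : ℝ) : ℂ) * A * conj (1 + z) ^ 2 + conj z ^ 2 * conj B * (1 + z) ^ 2‖ ≤
        12 * C * √(1 - ‖z‖ ^ 2) * ‖1 + z‖ ^ 2 := by
    intro z hz
    have hz1 : ‖z‖ < 1 := by simpa using hz
    set r : ℝ := √(1 - ‖z‖ ^ 2) / 4 with hr
    have hpos : 0 < 1 - ‖z‖ ^ 2 := by nlinarith [norm_nonneg z]
    have hr0 : 0 < r := by positivity
    have hr2 : 1 - ‖z‖ ^ 2 = 16 * r ^ 2 := by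
      rw [hr, div_pow, Real.sq_sqrt hpos.le]; ring
    have k1 := h z hz r hr0 (by nlinarith)
    have k2 := h z hz (2 * r) (by positivity) (by nlinarith)
    rw [hr2] at k1 k2
    have k1' : ‖conj z * a z + (r : ℂ) ^ 2 * c2 z + conj (b z)‖ * ‖1 + z‖ ^ 2 ≤ 28 * C * r := by
      refine k1.trans (le_of_eq ?_)
      field_simp; ring
    have k2' : ‖conj z * a z + ((2 * r : ℝ) : ℂ) ^ 2 * c2 z + conj (b z)‖ * ‖1 + z‖ ^ 2
        ≤ 32 * C * r := by
      refine k2.trans (le_of_eq ?_)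
      field_simp; ring
    have k3 : ‖conj z * a z + conj (b z)‖ * ‖1 + z‖ ^ 2 ≤ 48 * C * r := by
      have e : conj z * a z + conj (b z) =
          (4 / 3 : ℂ) * (conj z * a z + (r : ℂ) ^ 2 * c2 z + conj (b z)) -
          (1 / 3 : ℂ) * (conj z * a z + ((2 * r : ℝ) : ℂ) ^ 2 * c2 z + conj (b z)) := by
        push_cast; ring
      have e1 : ‖(4 / 3 : ℂ)‖ = 4 / 3 := by
        rw [show (4 / 3 : ℂ) = ((4 / 3 : ℝ) : ℂ) by push_cast; ring, Complex.norm_real]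
        norm_num
      have e2 : ‖(1 / 3 : ℂ)‖ = 1 / 3 := by
        rw [show (1 / 3 : ℂ) = ((1 / 3 : ℝ) : ℂ) by push_cast; ring, Complex.norm_real]
        norm_num
      rw [e]
      have e3 := norm_sub_le ((4 / 3 : ℂ) * (conj z * a z + (r : ℂ) ^ 2 * c2 z + conj (b z)))
        ((1 / 3 : ℂ) * (conj z * a z + ((2 * r : ℝ) : ℂ) ^ 2 * c2 z + conj (b z)))
      rw [norm_mul, norm_mul, e1, e2] at e3
      have e4 : 0 ≤ ‖1 + z‖ ^ 2 := by positivity
      nlinarith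
    have k4 : ((‖z‖ ^ 2 : ℝ) : ℂ) * A * conj (1 + z) ^ 2 + conj z ^ 2 * conj B * (1 + z) ^ 2 =
        (conj z * a z + conj (b z)) * ((1 + z) ^ 2 * conj (1 + z) ^ 2) := by
      rw [← hαA z hz, ← hβB z hz, hα1 z, hbβ z]
      have : ((‖z‖ ^ 2 : ℝ) : ℂ) = z * conj z := by
        rw [Complex.mul_conj, Complex.normSq_eq_norm_sq]
      rw [this]
      simp only [map_mul, map_pow, map_add, map_one]
      ring
    rw [k4, norm_mul, norm_mul, norm_pow, norm_pow, Complex.norm_conj]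
    have k5 : 48 * C * r = 12 * C * √(1 - ‖z‖ ^ 2) := by rw [hr]; ring
    rw [k5] at k3
    calc ‖conj z * a z + conj (b z)‖ * (‖1 + z‖ ^ 2 * ‖1 + z‖ ^ 2)
        = (‖conj z * a z + conj (b z)‖ * ‖1 + z‖ ^ 2) * ‖1 + z‖ ^ 2 := by ring
      _ ≤ _ := by gcongr
  -- first direction
  have hAB : A + conj B = 0 := by
    have h1 : (fun s : ℝ => (1 - s) ^ 2 * ‖A + conj B‖) 0 ≤ (fun s : ℝ => 12 * C * √(2 * s)) 0 := by
      refine le_at_zero (f := fun s : ℝ => (1 - s) ^ 2 * ‖A + conj B‖)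
        (g := fun s : ℝ => 12 * C * √(2 * s)) ?_ ?_ ?_
      · fun_prop
      · fun_prop
      · rintro s ⟨hs0, hs1⟩
        have hz : ((-1 + s : ℝ) : ℂ) ∈ ball (0 : ℂ) 1 := by
          rw [mem_ball_zero_iff, Complex.norm_real, Real.norm_eq_abs, abs_lt]
          constructor <;> linarith
        have h2 := hkey _ hz
        have h3 : (1 : ℂ) + ((-1 + s : ℝ) : ℂ) = (s : ℂ) := by push_cast; ring
        rw [h3, Complex.conj_ofReal, Complex.conj_ofReal, Complex.norm_real, Complex.norm_real,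
          Real.norm_eq_abs, Real.norm_eq_abs, sq_abs, sq_abs] at h2
        have h4 : (((-1 + s) ^ 2 : ℝ) : ℂ) * A * (s : ℂ) ^ 2 + ((-1 + s : ℝ) : ℂ) ^ 2 * conj B *
            (s : ℂ) ^ 2 = (((1 - s) ^ 2 * s ^ 2 : ℝ) : ℂ) * (A + conj B) := by
          push_cast; ring
        rw [h4, norm_mul, Complex.norm_real, Real.norm_of_nonneg (by positivity)] at h2
        have h5 : √(1 - (-1 + s) ^ 2) ≤ √(2 * s) := by
          apply Real.sqrt_le_sqrt; nlinarith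
        have h6 : 0 < s ^ 2 := by positivity
        have h7 : s ^ 2 * ((1 - s) ^ 2 * ‖A + conj B‖) ≤ s ^ 2 * (12 * C * √(2 * s)) := by
          calc s ^ 2 * ((1 - s) ^ 2 * ‖A + conj B‖) = (1 - s) ^ 2 * s ^ 2 * ‖A + conj B‖ := by ring
            _ ≤ 12 * C * √(1 - (-1 + s) ^ 2) * s ^ 2 := h2
            _ ≤ 12 * C * √(2 * s) * s ^ 2 := by gcongr
            _ = _ := by ring
        exact le_of_mul_le_mul_left h7 h6
    simp at h1
    exact h1
  have hBA : conj B = -A := by linear_combination hAB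
  have hA0 : A = 0 := by
    have h1 : (fun s : ℝ => 2 * (1 - s) * √(1 - 2 * s + 2 * s ^ 2) * ‖A‖) 0 ≤
        (fun s : ℝ => 12 * C * √(2 * s)) 0 := by
      refine le_at_zero (f := fun s : ℝ => 2 * (1 - s) * √(1 - 2 * s + 2 * s ^ 2) * ‖A‖)
        (g := fun s : ℝ => 12 * C * √(2 * s)) ?_ ?_ ?_
      · fun_prop
      · fun_prop
      · rintro s ⟨hs0, hs1⟩
        set z : ℂ := ⟨-1 + s, s⟩ with hzdef
        have hn : ‖z‖ ^ 2 = 1 - 2 * s + 2 * s ^ 2 := by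
          rw [← Complex.normSq_eq_norm_sq, Complex.normSq_apply]; simp [hzdef]; ring
        have hz : z ∈ ball (0 : ℂ) 1 := by
          rw [mem_ball_zero_iff]
          have : ‖z‖ ^ 2 < 1 := by rw [hn]; nlinarith
          nlinarith [norm_nonneg z]
        have h2 := hkey _ hz
        have h3 : (1 : ℂ) + z = ⟨s, s⟩ := by apply Complex.ext <;> simp [hzdef]
        have h4 : ‖(1 : ℂ) + z‖ ^ 2 = 2 * s ^ 2 := by
          rw [h3, ← Complex.normSq_eq_norm_sq, Complex.normSq_apply]; ring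
        have h5 : (1 + z) ^ 2 = 2 * (s : ℂ) ^ 2 * I := by
          rw [h3]
          apply Complex.ext
          · simp [pow_two]
          · simp [pow_two]; ring
        have h6 : conj (1 + z) ^ 2 = -(2 * (s : ℂ) ^ 2 * I) := by
          rw [← map_pow, h5, map_mul, map_mul, map_pow, Complex.conj_ofReal, Complex.conj_I,
            map_ofNat]
          ring
        have h7 : ((‖z‖ ^ 2 : ℝ) : ℂ) * A * conj (1 + z) ^ 2 + conj z ^ 2 * conj B * (1 + z) ^ 2 =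
            -(2 * (s : ℂ) ^ 2 * I) * A * (conj z * (z + conj z)) := by
          have : ((‖z‖ ^ 2 : ℝ) : ℂ) = z * conj z := by
            rw [Complex.mul_conj, Complex.normSq_eq_norm_sq]
          rw [this, h5, h6, hBA]; ring
        rw [h7, Complex.add_conj, norm_mul, norm_mul, norm_mul, norm_neg, norm_mul, norm_mul,
          norm_pow, Complex.norm_conj, Complex.norm_real, Complex.norm_real, Complex.norm_I,
          Complex.norm_ofNat, h4, hn] at h2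
        have h8 : ‖(2 * z.re : ℝ)‖ = 2 * (1 - s) := by
          rw [Real.norm_eq_abs, hzdef]
          simp only
          rw [abs_of_neg (by linarith)]; ring
        have h9 : ‖z‖ = √(1 - 2 * s + 2 * s ^ 2) := by
          rw [← hn, Real.sqrt_sq (norm_nonneg z)]
        rw [h8, h9, Real.norm_of_nonneg hs0.le] at h2
        have h10 : √(1 - (1 - 2 * s + 2 * s ^ 2)) ≤ √(2 * s) := by
          apply Real.sqrt_le_sqrt; nlinarith
        have h11 : 0 < 2 * s ^ 2 := by positivity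
        have h12 : 2 * s ^ 2 * (2 * (1 - s) * √(1 - 2 * s + 2 * s ^ 2) * ‖A‖) ≤
            2 * s ^ 2 * (12 * C * √(2 * s)) := by
          calc 2 * s ^ 2 * (2 * (1 - s) * √(1 - 2 * s + 2 * s ^ 2) * ‖A‖)
              = 2 * s ^ 2 * 1 * ‖A‖ * (√(1 - 2 * s + 2 * s ^ 2) * (2 * (1 - s))) := by ring
            _ ≤ 12 * C * √(1 - (1 - 2 * s + 2 * s ^ 2)) * (2 * s ^ 2) := h2
            _ ≤ 12 * C * √(2 * s) * (2 * s ^ 2) := by gcongr
            _ = _ := by ring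
        exact le_of_mul_le_mul_left h12 h11
    simp at h1
    have : ‖A‖ ≤ 0 := by linarith
    exact norm_le_zero_iff.1 this
  have hB0 : B = 0 := by
    have h1 : conj B = 0 := by rw [hBA, hA0, neg_zero]
    have h2 := congrArg conj h1
    simpa using h2
  intro z hz
  have hz1 : ‖z‖ < 1 := by simpa using hz
  have h10 : (1 + z) ≠ 0 := by
    intro h
    have : z = -1 := by linear_combination h
    rw [this] at hz1; simp at hz1
  have h11 : β z = 0 := by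
    have := hβB z hz
    rw [hB0] at this
    rcases mul_eq_zero.1 this with h | h
    · exact h
    · exact absurd h (pow_ne_zero 2 h10)
  rw [hbβ z, h11, mul_zero]

end

end Pool.Agent.Helper64.SP
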