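import Mathlib

open Complex MeasureTheory Metric Set Real Filter Topology ComplexConjugate

namespace Pool.Agent.Helper64.SP

/-- Taylor coefficient at `0`. -/
noncomputable def co (f : ℂ → ℂ) (m : ℕ) : ℂ := (m.factorial : ℂ)⁻¹ * iteratedDeriv m f 0

lemma co_zero (f : ℂ → ℂ) : co f 0 = f 0 := by
  simp [co]

lemma co_one (f : ℂ → ℂ) : co f 1 = deriv f 0 := by
  simp [co]

lemma norm_circleAverage_le {f : ℂ → ℂ} {r C : ℝ} (hr : 0 ≤ r)
    (h : ∀ ζ ∈ sphere (0 : ℂ) r, ‖f ζ‖ ≤ C) : ‖circleAverage f 0 r‖ ≤ C := by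
  unfold circleAverage
  have h1 : ‖∫ θ in (0 : ℝ)..2 * π, f (circleMap 0 r θ)‖ ≤ C * |2 * π - 0| := by
    apply intervalIntegral.norm_integral_le_of_norm_le_const
    intro θ _
    exact h _ (circleMap_mem_sphere 0 hr θ)
  rw [norm_smul, norm_inv, Real.norm_of_nonneg (by positivity : (0:ℝ) ≤ 2 * π)]
  have h2 : |2 * π - 0| = 2 * π := by rw [sub_zero, abs_of_pos]; positivity
  rw [h2] at h1
  calc (2 * π)⁻¹ * ‖∫ θ in (0 : ℝ)..2 * π, f (circleMap 0 r θ)‖
      ≤ (2 * π)⁻¹ * (C * (2 * π)) := by gcongr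
    _ = C := by field_simp

lemma ne_zero_of_sphere {r : ℝ} (hr : 0 < r) {ζ : ℂ} (h : ζ ∈ sphere (0 : ℂ) r) : ζ ≠ 0 := by
  intro h0
  rw [h0] at h
  simp at h
  exact hr.ne h

lemma norm_of_sphere {r : ℝ} {ζ : ℂ} (h : ζ ∈ sphere (0 : ℂ) r) : ‖ζ‖ = r := by
  simpa using h

lemma conj_of_sphere {r : ℝ} (hr : 0 < r) {ζ : ℂ} (h : ζ ∈ sphere (0 : ℂ) r) :
    conj ζ = (r : ℂ) ^ 2 * ζ⁻¹ := by
  have h0 := ne_zero_of_sphere hr h
  have h1 : ζ * conj ζ = (r : ℂ) ^ 2 := by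
    rw [Complex.mul_conj, Complex.normSq_eq_norm_sq, norm_of_sphere h]
    push_cast; rfl
  field_simp
  rw [← h1]; ring

/-- Coefficient extraction. -/
lemma circleAverage_neg_pow {f : ℂ → ℂ} {R r : ℝ} (hf : DifferentiableOn ℂ f (ball 0 R))
    (hr : 0 < r) (hrR : r < R) (m : ℕ) :
    circleAverage (fun ζ => f ζ * ζ ^ (-(m : ℤ))) 0 r = co f m := by
  rw [circleAverage_eq_circleIntegral hr.ne']
  have h1 : DifferentiableOn ℂ f (closedBall 0 r) := hf.mono (closedBall_subset_ball hrR)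
  have h2 := DifferentiableOn.circleIntegral_one_div_sub_center_pow_smul hr m h1
  have h3 : (∮ ζ in C(0, r), (ζ - 0)⁻¹ • (f ζ * ζ ^ (-(m : ℤ)))) =
      ∮ (z : ℂ) in C(0, r), (1 / (z - 0) ^ (m + 1)) • f z := by
    apply circleIntegral.integral_congr hr.le
    intro ζ hζ
    have h0 := ne_zero_of_sphere hr hζ
    simp only [sub_zero, smul_eq_mul, zpow_neg, zpow_natCast]
    field_simp
    ring
  rw [h3, h2, co]
  simp only [smul_eq_mul]
  have : (2 * (π : ℂ) * I) ≠ 0 := by simp [Real.pi_ne_zero]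
  field_simp

lemma circleAverage_pos_pow {f : ℂ → ℂ} {R r : ℝ} (hf : DifferentiableOn ℂ f (ball 0 R))
    (hr : 0 < r) (hrR : r < R) (m : ℕ) (hm : 1 ≤ m) :
    circleAverage (fun ζ => f ζ * ζ ^ m) 0 r = 0 := by
  have h1 : DiffContOnCl ℂ (fun ζ => f ζ * ζ ^ m) (ball 0 |r|) := by
    refine DifferentiableOn.diffContOnCl ?_
    rw [abs_of_pos hr, closure_ball _ hr.ne']
    exact (hf.mono (closedBall_subset_ball hrR)).mul (by fun_prop)
  rw [h1.circleAverage]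
  simp [show m ≠ 0 by omega]

lemma circleAverage_plain {f : ℂ → ℂ} {R r : ℝ} (hf : DifferentiableOn ℂ f (ball 0 R))
    (hr : 0 < r) (hrR : r < R) :
    circleAverage f 0 r = f 0 := by
  have h1 : DiffContOnCl ℂ f (ball 0 |r|) := by
    refine DifferentiableOn.diffContOnCl ?_
    rw [abs_of_pos hr, closure_ball _ hr.ne']
    exact (hf.mono (closedBall_subset_ball hrR))
  exact h1.circleAverage

lemma circleIntegrable_mul_zpow {f : ℂ → ℂ} {R r : ℝ} (hf : DifferentiableOn ℂ f (ball 0 R))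
    (hr : 0 < r) (hrR : r < R) (m : ℤ) :
    CircleIntegrable (fun ζ => f ζ * ζ ^ m) 0 r := by
  apply ContinuousOn.circleIntegrable hr.le
  have h1 : ContinuousOn f (sphere 0 r) :=
    hf.continuousOn.mono (sphere_subset_closedBall.trans (closedBall_subset_ball hrR))
  refine h1.mul ?_
  refine ContinuousOn.zpow₀ continuousOn_id m ?_
  intro ζ hζ
  exact Or.inl (ne_zero_of_sphere hr hζ)

lemma circleAverage_conj {f : ℂ → ℂ} {r : ℝ} :
    circleAverage (fun ζ => conj (f ζ)) 0 r = conj (circleAverage f 0 r) := by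
  unfold circleAverage
  have h : ∫ θ in (0 : ℝ)..2 * π, conj (f (circleMap 0 r θ)) =
      conj (∫ θ in (0 : ℝ)..2 * π, f (circleMap 0 r θ)) := by
    simp only [intervalIntegral]
    rw [map_sub, ← integral_conj, ← integral_conj]
  rw [h, Complex.real_smul, Complex.real_smul, map_mul, Complex.conj_ofReal]

lemma circleAverage_const_mul {f : ℂ → ℂ} {r : ℝ} (a : ℂ) :
    circleAverage (fun ζ => a * f ζ) 0 r = a * circleAverage f 0 r := by
  have := circleAverage_fun_smul (f := f) (a := a) (c := 0) (R := r)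
  simpa [smul_eq_mul] using this

/-- The basic estimate on Fourier modes: if `Re (w f + conj ζ g)` is bounded by `u` on the circle
`|ζ| = r`, so are its modes. -/
lemma mode_bound {f g : ℂ → ℂ} {R r u : ℝ} {w : ℂ} (hf : DifferentiableOn ℂ f (ball 0 R))
    (hg : DifferentiableOn ℂ g (ball 0 R)) (hr : 0 < r) (hrR : r < R)
    (hu : ∀ ζ ∈ sphere (0 : ℂ) r, |(w * f ζ + conj ζ * g ζ).re| ≤ u) (m : ℕ) (hm : 1 ≤ m) :
    ‖w * co f m + (r : ℂ) ^ 2 * co g (m + 1) + (if m = 1 then conj (g 0) else 0)‖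
      ≤ 2 * u / r ^ m := by
  have hr' : (r : ℂ) ≠ 0 := by exact_mod_cast hr.ne'
  -- the average of `2 φ ζ^{-m}`
  have hbound : ‖circleAverage (fun ζ => ((2 * (w * f ζ + conj ζ * g ζ).re : ℝ) : ℂ) *
      ζ ^ (-(m : ℤ))) 0 r‖ ≤ 2 * u / r ^ m := by
    apply norm_circleAverage_le hr.le
    intro ζ hζ
    rw [norm_mul, norm_zpow, norm_of_sphere hζ, Complex.norm_real, zpow_neg, zpow_natCast,
      div_eq_mul_inv]
    apply mul_le_mul_of_nonneg_right _ (by positivity)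
    rw [Real.norm_eq_abs, abs_mul, abs_two]
    have := hu ζ hζ
    linarith
  -- expansion
  have hexp : circleAverage (fun ζ => ((2 * (w * f ζ + conj ζ * g ζ).re : ℝ) : ℂ) *
      ζ ^ (-(m : ℤ))) 0 r = circleAverage (fun ζ =>
        (w * (f ζ * ζ ^ (-(m : ℤ))) + (r : ℂ) ^ 2 * (g ζ * ζ ^ (-((m + 1 : ℕ) : ℤ)))) +
        conj (w * (((r : ℂ) ^ 2) ^ (-(m : ℤ)) * (f ζ * ζ ^ m)) +
          ((r : ℂ) ^ 2) ^ (-((m : ℤ) - 1)) * (g ζ * ζ ^ (m - 1)))) 0 r := by
    apply circleAverage_congr_sphere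
    intro ζ hζ
    rw [abs_of_pos hr] at hζ
    have h0 := ne_zero_of_sphere hr hζ
    have hc := conj_of_sphere hr hζ
    have hre : ((2 * (w * f ζ + conj ζ * g ζ).re : ℝ) : ℂ) =
        (w * f ζ + conj ζ * g ζ) + conj (w * f ζ + conj ζ * g ζ) := by
      rw [Complex.add_conj]
    simp only
    rw [hre, add_mul]
    congr 1
    · rw [hc, add_mul]
      congr 1
      · ring
      · have : ζ ^ (-((m + 1 : ℕ) : ℤ)) = ζ⁻¹ * ζ ^ (-(m : ℤ)) := by
          push_cast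
          rw [neg_add, zpow_add₀ h0, zpow_neg_one, mul_comm]
        rw [this]; ring
    · have hz : ζ ^ (-(m : ℤ)) = conj (((r : ℂ) ^ 2) ^ (-(m : ℤ)) * ζ ^ m) := by
        have h2 : conj ζ ^ (-(m : ℤ)) = ((r : ℂ) ^ 2) ^ (-(m : ℤ)) * ζ ^ m := by
          rw [hc, mul_zpow, inv_zpow, zpow_neg ζ, inv_inv, zpow_natCast]
        rw [← h2, map_zpow₀, Complex.conj_conj]
      rw [hz, ← map_mul]
      congr 1
      rw [add_mul]
      congr 1
      · ring
      · rw [hc]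
        have h3 : ((r : ℂ) ^ 2) ^ (-((m : ℤ) - 1)) = ((r : ℂ) ^ 2) ^ (-(m : ℤ)) * (r : ℂ) ^ 2 := by
          rw [neg_sub, sub_eq_add_neg, zpow_add₀ (pow_ne_zero 2 hr'), zpow_one, mul_comm]
        have h4 : ζ ^ m = ζ * ζ ^ (m - 1) := by
          rw [← pow_succ']; congr 1; omega
        rw [h3, h4]
        field_simp
  have i1 := circleIntegrable_mul_zpow hf hr hrR (-(m : ℤ))
  have i2 := circleIntegrable_mul_zpow hg hr hrR (-((m + 1 : ℕ) : ℤ))
  have i3 := circleIntegrable_mul_zpow hf hr hrR (m : ℤ)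
  have i4 := circleIntegrable_mul_zpow hg hr hrR ((m - 1 : ℕ) : ℤ)
  simp only [zpow_natCast] at i3 i4
  have j1 : CircleIntegrable (fun ζ => w * (f ζ * ζ ^ (-(m : ℤ)))) 0 r := i1.const_fun_smul (a := w)
  have j2 : CircleIntegrable (fun ζ => (r : ℂ) ^ 2 * (g ζ * ζ ^ (-((m + 1 : ℕ) : ℤ)))) 0 r :=
    i2.const_fun_smul (a := (r : ℂ) ^ 2)
  have j3 : CircleIntegrable (fun ζ => w * (((r : ℂ) ^ 2) ^ (-(m : ℤ)) * (f ζ * ζ ^ m))) 0 r :=
    (i3.const_fun_smul (a := ((r : ℂ) ^ 2) ^ (-(m : ℤ)))).const_fun_smul (a := w)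
  have j4 : CircleIntegrable (fun ζ => ((r : ℂ) ^ 2) ^ (-((m : ℤ) - 1)) * (g ζ * ζ ^ (m - 1))) 0 r :=
    i4.const_fun_smul (a := ((r : ℂ) ^ 2) ^ (-((m : ℤ) - 1)))
  have j12 : CircleIntegrable (fun ζ => w * (f ζ * ζ ^ (-(m : ℤ))) +
      (r : ℂ) ^ 2 * (g ζ * ζ ^ (-((m + 1 : ℕ) : ℤ)))) 0 r := j1.add j2
  have j34 : CircleIntegrable (fun ζ => w * (((r : ℂ) ^ 2) ^ (-(m : ℤ)) * (f ζ * ζ ^ m)) +
      ((r : ℂ) ^ 2) ^ (-((m : ℤ) - 1)) * (g ζ * ζ ^ (m - 1))) 0 r := j3.add j4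
  have j34c : CircleIntegrable (fun ζ => conj (w * (((r : ℂ) ^ 2) ^ (-(m : ℤ)) * (f ζ * ζ ^ m)) +
          ((r : ℂ) ^ 2) ^ (-((m : ℤ) - 1)) * (g ζ * ζ ^ (m - 1)))) 0 r := by
    have h5 := Complex.conjCLE.toContinuousLinearMap.integrable_comp j34.1
    have h6 := Complex.conjCLE.toContinuousLinearMap.integrable_comp j34.2
    exact ⟨h5, h6⟩
  rw [hexp, circleAverage_fun_add j12 j34c, circleAverage_conj, circleAverage_fun_add j1 j2,
    circleAverage_fun_add j3 j4, circleAverage_const_mul, circleAverage_const_mul,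
    circleAverage_const_mul, circleAverage_const_mul, circleAverage_const_mul,
    circleAverage_neg_pow hf hr hrR m, circleAverage_neg_pow hg hr hrR (m + 1),
    circleAverage_pos_pow hf hr hrR m hm] at hbound
  have hlast : conj (w * (((r : ℂ) ^ 2) ^ (-(m : ℤ)) * 0) + ((r : ℂ) ^ 2) ^ (-((m : ℤ) - 1)) *
      circleAverage (fun ζ => g ζ * ζ ^ (m - 1)) 0 r) = if m = 1 then conj (g 0) else 0 := by
    by_cases h1 : m = 1
    · subst h1
      have : circleAverage (fun ζ => g ζ * ζ ^ (1 - 1)) 0 r = g 0 := by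
        have := circleAverage_plain hg hr hrR
        simpa using this
      rw [this]
      simp
    · rw [circleAverage_pos_pow hg hr hrR (m - 1) (by omega)]
      simp [h1]
  rw [hlast] at hbound
  exact hbound

/-- The zeroth mode. -/
lemma mode_zero {f g : ℂ → ℂ} {R r u : ℝ} {w : ℂ} (hf : DifferentiableOn ℂ f (ball 0 R))
    (hg : DifferentiableOn ℂ g (ball 0 R)) (hr : 0 < r) (hrR : r < R)
    (hu : ∀ ζ ∈ sphere (0 : ℂ) r, |(w * f ζ + conj ζ * g ζ).re| ≤ u) :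
    |(w * f 0 + (r : ℂ) ^ 2 * co g 1).re| ≤ u := by
  have hr' : (r : ℂ) ≠ 0 := by exact_mod_cast hr.ne'
  have hbound : ‖circleAverage (fun ζ => ((2 * (w * f ζ + conj ζ * g ζ).re : ℝ) : ℂ)) 0 r‖
      ≤ 2 * u := by
    apply norm_circleAverage_le hr.le
    intro ζ hζ
    rw [Complex.norm_real, Real.norm_eq_abs, abs_mul, abs_two]
    have := hu ζ hζ
    linarith
  have hexp : circleAverage (fun ζ => ((2 * (w * f ζ + conj ζ * g ζ).re : ℝ) : ℂ)) 0 r =
      circleAverage (fun ζ =>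
        (w * f ζ + (r : ℂ) ^ 2 * (g ζ * ζ ^ (-((1 : ℕ) : ℤ)))) +
        conj (w * f ζ + (r : ℂ) ^ 2 * (g ζ * ζ ^ (-((1 : ℕ) : ℤ))))) 0 r := by
    apply circleAverage_congr_sphere
    intro ζ hζ
    rw [abs_of_pos hr] at hζ
    have hc := conj_of_sphere hr hζ
    have hre : ((2 * (w * f ζ + conj ζ * g ζ).re : ℝ) : ℂ) =
        (w * f ζ + conj ζ * g ζ) + conj (w * f ζ + conj ζ * g ζ) := by
      rw [Complex.add_conj]
    simp only
    rw [hre]
    have h1 : w * f ζ + conj ζ * g ζ = w * f ζ + (r : ℂ) ^ 2 * (g ζ * ζ ^ (-((1 : ℕ) : ℤ))) := by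
      rw [hc]; simp; ring
    rw [h1]
  have i1 := circleIntegrable_mul_zpow hf hr hrR 0
  have i2 := circleIntegrable_mul_zpow hg hr hrR (-((1 : ℕ) : ℤ))
  have i1' : CircleIntegrable (fun ζ => f ζ) 0 r := by simpa using i1
  have j1 : CircleIntegrable (fun ζ => w * f ζ) 0 r := i1'.const_fun_smul (a := w)
  have j2 : CircleIntegrable (fun ζ => (r : ℂ) ^ 2 * (g ζ * ζ ^ (-((1 : ℕ) : ℤ)))) 0 r :=
    i2.const_fun_smul (a := (r : ℂ) ^ 2)
  have j12 : CircleIntegrable (fun ζ => w * f ζ + (r : ℂ) ^ 2 *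
      (g ζ * ζ ^ (-((1 : ℕ) : ℤ)))) 0 r := j1.add j2
  have j12c : CircleIntegrable (fun ζ => conj (w * f ζ + (r : ℂ) ^ 2 *
      (g ζ * ζ ^ (-((1 : ℕ) : ℤ))))) 0 r := by
    have h5 := Complex.conjCLE.toContinuousLinearMap.integrable_comp j12.1
    have h6 := Complex.conjCLE.toContinuousLinearMap.integrable_comp j12.2
    exact ⟨h5, h6⟩
  have hff : circleAverage (fun ζ => f ζ) 0 r = f 0 := circleAverage_plain hf hr hrR
  rw [hexp, circleAverage_fun_add j12 j12c, circleAverage_conj, circleAverage_fun_add j1 j2,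
    circleAverage_const_mul, circleAverage_const_mul,
    circleAverage_neg_pow hg hr hrR 1, hff, Complex.add_conj, Complex.norm_real,
    Real.norm_eq_abs, abs_mul, abs_two] at hbound
  linarith

end Pool.Agent.Helper64.SP
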