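import Pool.Agent.Helper64.SP.Ineq

open Complex MeasureTheory Metric Set Real Filter Topology ComplexConjugate

namespace Pool.Agent.Helper64.SP

/-- `1 + s i log(1+z)` -/
noncomputable def WW (s : ℝ) (z : ℂ) : ℂ := 1 + s * I * Complex.log (1 + z)

/-- the second component function of `h_f` for the perturbed map -/
noncomputable def cs (q : ℂ) (s : ℝ) (z : ℂ) : ℂ :=
  cc q z - s * I * (z / (1 + z)) * pp z / WW s z

lemma WW_re (s : ℝ) (z : ℂ) : (WW s z).re = 1 - s * Complex.arg (1 + z) := by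
  unfold WW
  rw [← Complex.log_im]
  simp only [Complex.add_re, Complex.one_re, Complex.mul_re, Complex.ofReal_re, Complex.I_re,
    Complex.ofReal_im, Complex.I_im, Complex.mul_im]
  ring

lemma WW_im (s : ℝ) (z : ℂ) : (WW s z).im = s * Real.log ‖1 + z‖ := by
  unfold WW
  rw [← Complex.log_re]
  simp only [Complex.add_im, Complex.one_im, Complex.mul_re, Complex.ofReal_re, Complex.I_re,
    Complex.ofReal_im, Complex.I_im, Complex.mul_im]
  ring

/-- admissible values of the parameter -/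
def Adm (s : ℝ) : Prop := s = 0 ∨ s ^ 2 = (1 / 10000 : ℝ) ^ 2

lemma Adm.abs_le {s : ℝ} (h : Adm s) : |s| ≤ 1 / 10000 := by
  rcases h with h | h
  · rw [h]; norm_num
  · rw [← abs_of_pos (by norm_num : (0 : ℝ) < 1 / 10000)]
    exact ((sq_eq_sq_iff_abs_eq_abs _ _).1 h).le

lemma WW_re_bounds {s : ℝ} (h : Adm s) (z : ℂ) :
    0.999 ≤ (WW s z).re ∧ (WW s z).re ≤ 1.001 := by
  rw [WW_re]
  have h1 : |s * Complex.arg (1 + z)| ≤ 1 / 10000 * 3.15 := by
    rw [abs_mul]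
    have h2 := Complex.abs_arg_le_pi (1 + z)
    have h3 : π ≤ 3.15 := Real.pi_lt_d2.le
    gcongr
    · exact h.abs_le
    · linarith
  rw [abs_le] at h1
  constructor <;> linarith [h1.1, h1.2]

lemma WW_ne {s : ℝ} (h : Adm s) (z : ℂ) : WW s z ≠ 0 := by
  intro h0
  have h1 := (WW_re_bounds h z).1
  rw [h0] at h1
  norm_num at h1

lemma G_eq {z : ℂ} (hz : z ∈ ball (0 : ℂ) 1) : z / (1 + z) = (1 - pp z) / 2 := by
  have h0 := one_add_ne hz
  unfold pp
  field_simp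
  ring

lemma one_add_eq {z : ℂ} (hz : z ∈ ball (0 : ℂ) 1) : (1 + pp z) * (1 + z) = 2 := by
  have h0 := one_add_ne hz
  unfold pp
  field_simp
  ring

lemma pp_re_pos {z : ℂ} (hz : z ∈ ball (0 : ℂ) 1) : 0 < (pp z).re := by
  have h1 := pp_re hz
  have hz1 : ‖z‖ < 1 := by simpa using hz
  have h2 : 0 < 1 - ‖z‖ ^ 2 := by nlinarith [norm_nonneg z]
  have h3 : 0 < ‖1 + z‖ ^ 2 := by
    have := one_add_ne hz
    positivity
  by_contra h
  push Not at h
  nlinarith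

lemma abs_sq_rel {z : ℂ} (hz : z ∈ ball (0 : ℂ) 1) :
    ((1 + (pp z).re) ^ 2 + (pp z).im ^ 2) * ‖1 + z‖ ^ 2 = 4 := by
  have h1 := one_add_eq hz
  have h2 := congrArg (fun w => ‖w‖ ^ 2) h1
  simp only [norm_mul, mul_pow] at h2
  rw [← Complex.normSq_eq_norm_sq (1 + pp z), Complex.normSq_apply] at h2
  simp only [Complex.add_re, Complex.one_re, Complex.add_im, Complex.one_im,
    Complex.norm_ofNat] at h2
  linear_combination h2

lemma norm_add_cc {q : ℂ} (hq : ‖q‖ = 1) (z : ℂ) :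
    ‖z / (1 + z)‖ ^ 2 + (cc q z).re = RR q z := by
  set G : ℂ := z / (1 + z) with hG
  have hGn : ‖G‖ ^ 2 = ‖q * G‖ ^ 2 := by
    rw [norm_mul, hq, one_mul]
  have h2 : (cc q z).re = 1 - 2 * √2 * (q * G).re + ((q * G).re ^ 2 - (q * G).im ^ 2) := by
    have : cc q z = 1 - ((2 * √2 : ℝ) : ℂ) * (q * G) + (q * G) ^ 2 := by
      unfold cc; push_cast; ring
    have h6 : ((q * G) ^ 2).re = (q * G).re ^ 2 - (q * G).im ^ 2 := by
      rw [pow_two, Complex.mul_re]; ring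
    rw [this, Complex.add_re, Complex.sub_re, Complex.re_ofReal_mul, Complex.one_re, h6]
  have h3 : ‖q * G‖ ^ 2 = (q * G).re ^ 2 + (q * G).im ^ 2 := by
    rw [← Complex.normSq_eq_norm_sq, Complex.normSq_apply]; ring
  unfold RR
  rw [hGn, h3, h2, ← hG]
  have h5 : √2 ^ 2 = 2 := Real.sq_sqrt (by norm_num)
  linear_combination (-(q * G).re ^ 2) * h5

/-- the quantity `δ` -/
noncomputable def dd (q z : ℂ) : ℝ := √2 + q.re * ((pp z).re - 1) - q.im * (pp z).im

lemma two_RR {q z : ℂ} (hz : z ∈ ball (0 : ℂ) 1) : 2 * RR q z = dd q z ^ 2 := by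
  have h5 : √2 ^ 2 = 2 := Real.sq_sqrt (by norm_num)
  have h6 : dd q z = √2 * (1 - √2 * (q * (z / (1 + z))).re) := by
    rw [G_eq hz]
    unfold dd
    have : (q * ((1 - pp z) / 2)).re = (q.re * (1 - (pp z).re) + q.im * (pp z).im) / 2 := by
      have e : q * ((1 - pp z) / 2) = ((1 / 2 : ℝ) : ℂ) * (q * (1 - pp z)) := by
        push_cast; ring
      rw [e, Complex.re_ofReal_mul, Complex.mul_re]
      simp only [Complex.sub_re, Complex.one_re, Complex.sub_im, Complex.one_im]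
      ring
    rw [this]
    linear_combination (q.re * (1 - (pp z).re) + q.im * (pp z).im) / 2 * h5
  rw [h6]
  unfold RR
  linear_combination -(1 - √2 * (q * (z / (1 + z))).re) ^ 2 * h5

lemma re_div_mul (a w : ℂ) (hw : w ≠ 0) : (a / w).re * ‖w‖ ^ 2 = (a * conj w).re := by
  have hn : Complex.normSq w ≠ 0 := by simpa [Complex.normSq_eq_zero] using hw
  rw [Complex.div_re, ← Complex.normSq_eq_norm_sq, Complex.mul_re, Complex.conj_re,
    Complex.conj_im]
  field_simp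
  ring

/-- the main identity -/
lemma main_identity {q z : ℂ} {s : ℝ} (hq : ‖q‖ = 1) (hz : z ∈ ball (0 : ℂ) 1) (hs : Adm s) :
    2 * ‖WW s z‖ ^ 2 * (‖z / (1 + z)‖ ^ 2 + (cs q s z).re) =
      dd q z ^ 2 * (WW s z).re ^ 2
        - s * (2 * (pp z).re - 1) * (pp z).im * (WW s z).re +
      s ^ 2 * (dd q z ^ 2 * (-Real.log ‖1 + z‖) ^ 2 +
        ((pp z).im ^ 2 + (pp z).re - (pp z).re ^ 2) * (-Real.log ‖1 + z‖)) := by
  have hW := WW_ne hs z
  have h1 := norm_add_cc hq z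
  have h2 := two_RR (q := q) hz
  have h3 : (cs q s z).re = (cc q z).re - (s * I * (z / (1 + z)) * pp z / WW s z).re := by
    unfold cs; rw [Complex.sub_re]
  have h4 := re_div_mul (s * I * (z / (1 + z)) * pp z) (WW s z) hW
  have h5 : (s * I * (z / (1 + z)) * pp z * conj (WW s z)).re =
      s / 2 * ((WW s z).im * ((pp z).re - (pp z).re ^ 2 + (pp z).im ^ 2) -
        (WW s z).re * ((pp z).im - 2 * (pp z).re * (pp z).im)) := by
    rw [G_eq hz]
    have e : s * I * ((1 - pp z) / 2) * pp z * conj (WW s z) =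
        ((s / 2 : ℝ) : ℂ) * (I * (pp z - pp z ^ 2) * conj (WW s z)) := by
      push_cast; ring
    rw [e, Complex.re_ofReal_mul]
    simp only [pow_two, Complex.mul_re, Complex.mul_im, Complex.sub_re, Complex.sub_im,
      Complex.I_re, Complex.I_im, Complex.conj_re, Complex.conj_im]
    ring
  have h6 : ‖WW s z‖ ^ 2 = (WW s z).re ^ 2 + (s * Real.log ‖1 + z‖) ^ 2 := by
    rw [← WW_im, ← Complex.normSq_eq_norm_sq, Complex.normSq_apply]; ring
  have h7 : 2 * ‖WW s z‖ ^ 2 * (‖z / (1 + z)‖ ^ 2 + (cs q s z).re) =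
      ‖WW s z‖ ^ 2 * (2 * RR q z) -
        2 * ((s * I * (z / (1 + z)) * pp z / WW s z).re * ‖WW s z‖ ^ 2) := by
    rw [h3]
    linear_combination (2 * ‖WW s z‖ ^ 2) * h1
  rw [h7, h4, h5, h2, h6, WW_im]
  ring

/-- properties of `q` -/
structure GoodQ (q : ℂ) : Prop where
  norm : ‖q‖ = 1
  im : q.im = 1 / 100000
  re1 : q.re ≤ 1
  re0 : 1 - 1 / 10000000 ≤ q.re

lemma dd_lower {q z : ℂ} (hq : GoodQ q) (hx : 0 < (pp z).re) :
    (pp z).re - (pp z).re / 10000000 + 0.414 - (pp z).im / 100000 ≤ dd q z := by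
  have hs2 : 1.414 ≤ √2 := by
    apply Real.le_sqrt_of_sq_le; norm_num
  unfold dd
  rw [hq.im]
  have h1 : (pp z).re - 1 - (pp z).re / 10000000 ≤ q.re * ((pp z).re - 1) := by
    have h2 := mul_le_mul_of_nonneg_right hq.re0 hx.le
    have h3 := hq.re1
    linarith
  linarith

lemma log_facts {z : ℂ} (hz : z ∈ ball (0 : ℂ) 1) :
    -0.7 ≤ -Real.log ‖1 + z‖ := by
  have h0 := one_add_ne hz
  have hn : 0 < ‖1 + z‖ := norm_pos_iff.2 h0
  have hz1 : ‖z‖ < 1 := by simpa using hz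
  have hn2 : ‖1 + z‖ ≤ 2 := by
    calc ‖1 + z‖ ≤ ‖(1 : ℂ)‖ + ‖z‖ := norm_add_le _ _
      _ ≤ 2 := by rw [norm_one]; linarith
  have h1 : Real.log ‖1 + z‖ ≤ Real.log 2 := Real.log_le_log hn hn2
  have h2 := Real.log_two_lt_d9
  linarith

lemma log_small {z : ℂ} (hz : z ∈ ball (0 : ℂ) 1) (h4 : -Real.log ‖1 + z‖ < 4) :
    (1 + (pp z).re) ^ 2 + (pp z).im ^ 2 ≤ 110 ^ 2 := by
  have hab := abs_sq_rel hz
  have h0 := one_add_ne hz
  have hn : 0 < ‖1 + z‖ := norm_pos_iff.2 h0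
  have hexp : Real.exp (-4) < ‖1 + z‖ := by
    have h1 : -4 < Real.log ‖1 + z‖ := by linarith
    rwa [Real.lt_log_iff_exp_lt hn] at h1
  have he : Real.exp 1 < 2.7182818286 := Real.exp_one_lt_d9
  have he4 : Real.exp 4 < 55 := by
    have h1 : Real.exp 4 = Real.exp 1 ^ 4 := by
      rw [← Real.exp_nat_mul]; norm_num
    rw [h1]
    calc Real.exp 1 ^ 4 < 2.7182818286 ^ 4 := by
          gcongr
      _ < 55 := by norm_num
  have hinv : 1 / 55 < ‖1 + z‖ := by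
    have h1 : Real.exp (-4) = 1 / Real.exp 4 := by
      rw [Real.exp_neg]; simp
    have h2 : 1 / 55 < Real.exp (-4) := by
      rw [h1]
      apply one_div_lt_one_div_of_lt (Real.exp_pos 4) he4
    linarith
  by_contra hcon
  push Not at hcon
  have h1 : (1 / 55 : ℝ) ^ 2 ≤ ‖1 + z‖ ^ 2 := by gcongr
  have h2 : (110 ^ 2 : ℝ) * (1 / 55) ^ 2 <
      ((1 + (pp z).re) ^ 2 + (pp z).im ^ 2) * ‖1 + z‖ ^ 2 := by
    apply mul_lt_mul hcon h1 (by positivity) (by positivity)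
  rw [hab] at h2
  norm_num at h2

lemma log_neg {z : ℂ} (hz : z ∈ ball (0 : ℂ) 1) (h4 : -Real.log ‖1 + z‖ < 0) :
    (1 + (pp z).re) ^ 2 + (pp z).im ^ 2 ≤ 4 := by
  have hab := abs_sq_rel hz
  have h0 := one_add_ne hz
  have hn : 0 < ‖1 + z‖ := norm_pos_iff.2 h0
  have h1 : 0 < Real.log ‖1 + z‖ := by linarith
  have h2 : 1 < ‖1 + z‖ := by
    by_contra hcon
    push Not at hcon
    have := Real.log_nonpos hn.le hcon
    linarith
  have h3 : 1 < ‖1 + z‖ ^ 2 := by nlinarith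
  nlinarith [sq_nonneg (1 + (pp z).re), sq_nonneg (pp z).im]

lemma key_nonneg {q z : ℂ} {s : ℝ} (hq : GoodQ q) (hz : z ∈ ball (0 : ℂ) 1) (hs : Adm s) :
    0 ≤ ‖z / (1 + z)‖ ^ 2 + (cs q s z).re := by
  have hW := WW_ne hs z
  have hWp : 0 < 2 * ‖WW s z‖ ^ 2 := by positivity
  have hid := main_identity hq.norm hz hs
  have hA := WW_re_bounds hs z
  have hx := pp_re_pos hz
  have hL1 := log_facts hz
  have hδ := dd_lower hq hx
  suffices h : 0 ≤ 2 * ‖WW s z‖ ^ 2 * (‖z / (1 + z)‖ ^ 2 + (cs q s z).re) from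
    nonneg_of_mul_nonneg_right h hWp
  rw [hid]
  rcases hs with hs | hs
  · rw [hs]
    have : 0 ≤ dd q z ^ 2 * (WW 0 z).re ^ 2 := by positivity
    linarith
  rcases lt_or_ge (-Real.log ‖1 + z‖) 4 with h4 | h4
  · -- small case
    have hxy := log_small hz h4
    have hy2 : (pp z).im ^ 2 ≤ 110 ^ 2 := by
      have := sq_nonneg (1 + (pp z).re)
      linarith
    have hx2 : (pp z).re ≤ 110 := by
      have h1 : (1 + (pp z).re) ^ 2 ≤ 110 ^ 2 := by
        have := sq_nonneg (pp z).im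
        linarith
      have h2 := abs_le_of_sq_le_sq h1 (by norm_num)
      have h3 := (abs_le.1 h2).2
      linarith
    have hy3 : (pp z).im ≤ 110 := (abs_le.1 (abs_le_of_sq_le_sq hy2 (by norm_num))).2
    have hδ2 : (pp z).re + 0.41 ≤ dd q z := by linarith
    exact ineq_small hx hs hδ2 hA.1 hA.2 hL1 h4 hy2 hx2 (log_neg hz)
  · refine ineq_large hx hs ?_ hA.1 hA.2 h4
    linarith

lemma pos_re {q : ℂ} {s : ℝ} (hq : GoodQ q) (hs : Adm s) {z w : ℂ}
    (hzw : ‖z‖ ^ 2 + ‖w‖ ^ 2 < 1) (hne : z ≠ 0 ∨ w ≠ 0) :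
    0 < ‖z‖ ^ 2 * (pp z).re + ‖w‖ ^ 2 * (cs q s z).re := by
  have hz1 : ‖z‖ < 1 := by nlinarith [norm_nonneg z, norm_nonneg w]
  have hz : z ∈ ball (0 : ℂ) 1 := by simpa using hz1
  have h1 := key_nonneg hq hz hs
  have h2 := pp_re_pos hz
  have h3 := pp_re hz
  by_cases hz0 : z = 0
  · have hw : w ≠ 0 := by
      rcases hne with h | h
      · exact absurd hz0 h
      · exact h
    have h4 : cs q s z = 1 := by
      rw [hz0]; unfold cs cc; simp
    rw [h4, hz0]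
    simp only [norm_zero, Complex.one_re]
    have : 0 < ‖w‖ ^ 2 := by positivity
    nlinarith
  · have hzp : 0 < ‖z‖ ^ 2 := by positivity
    rcases le_or_gt 0 (cs q s z).re with h5 | h5
    · have h6 : 0 < ‖z‖ ^ 2 * (pp z).re := by positivity
      have h7 : 0 ≤ ‖w‖ ^ 2 * (cs q s z).re := by positivity
      linarith
    · have h0 := one_add_ne hz
      have hn : 0 < ‖1 + z‖ ^ 2 := by positivity
      have h6 : (1 - ‖z‖ ^ 2) * (cs q s z).re < ‖w‖ ^ 2 * (cs q s z).re := by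
        have : ‖w‖ ^ 2 < 1 - ‖z‖ ^ 2 := by linarith
        nlinarith
      have h7 : (pp z).re = (1 - ‖z‖ ^ 2) / ‖1 + z‖ ^ 2 := by
        rw [eq_div_iff hn.ne', h3]
      have h8 : ‖z‖ ^ 2 * (pp z).re = (1 - ‖z‖ ^ 2) * ‖z / (1 + z)‖ ^ 2 := by
        rw [h7, norm_div, div_pow]; ring
      have h9 : 0 ≤ (1 - ‖z‖ ^ 2) * (‖z / (1 + z)‖ ^ 2 + (cs q s z).re) := by
        apply mul_nonneg _ h1
        nlinarith [norm_nonneg z]
      rw [h8]
      linarith

end Pool.Agent.Helper64.SP
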