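import Pool.Agent.Helper64.SP.Modes

open Complex MeasureTheory Metric Set Real Filter Topology ComplexConjugate

namespace Pool.Agent.Helper64.SP

/-- Averages of conjugated holomorphic functions against high negative powers vanish. -/
lemma conj_average {f : ℂ → ℂ} (hf : DifferentiableOn ℂ f (ball 0 1)) {ρ : ℝ} (hρ : 0 < ρ)
    (hρ1 : ρ < 1) (j e : ℕ) (hj : 1 ≤ j) (he : e ≤ 2) :
    circleAverage (fun z => conj (z ^ e * f z) * ((1 + z) ^ 2 * z ^ (-((j + 2 - e : ℕ) : ℤ)))) 0 ρ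
      = 0 := by
  have hρ' : (ρ : ℂ) ≠ 0 := by exact_mod_cast hρ.ne'
  have h1 : circleAverage (fun z => conj (z ^ e * f z) *
      ((1 + z) ^ 2 * z ^ (-((j + 2 - e : ℕ) : ℤ)))) 0 ρ =
      circleAverage (fun z => conj ((((ρ : ℂ) ^ 2) ^ (j + 2 - e))⁻¹ *
        ((f z * (z + (ρ : ℂ) ^ 2) ^ 2) * z ^ j))) 0 ρ := by
    apply circleAverage_congr_sphere
    intro z hz
    rw [abs_of_pos hρ] at hz
    have h0 := ne_zero_of_sphere hρ hz
    have hc := conj_of_sphere hρ hz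
    have h2 : (1 + z) ^ 2 * z ^ (-((j + 2 - e : ℕ) : ℤ)) =
        conj ((1 + conj z) ^ 2 * (conj z ^ (j + 2 - e))⁻¹) := by
      simp [zpow_neg]
    simp only
    rw [h2, ← map_mul]
    congr 1
    rw [hc, mul_pow, inv_pow, mul_inv, inv_inv]
    have h3 : z ^ (j + 2 - e) = z ^ (j + 2) * (z ^ e)⁻¹ := by
      rw [eq_mul_inv_iff_mul_eq₀ (pow_ne_zero e h0), ← pow_add]
      congr 1; omega
    rw [h3]
    field_simp
    ring
  rw [h1, circleAverage_conj, circleAverage_const_mul]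
  have h4 : DifferentiableOn ℂ (fun z => f z * (z + (ρ : ℂ) ^ 2) ^ 2) (ball 0 1) :=
    hf.mul (by fun_prop)
  rw [circleAverage_pos_pow h4 hρ hρ1 j hj]
  simp

/-- A holomorphic function with vanishing Taylor coefficients (except the constant one). -/
lemma const_of_co {H : ℂ → ℂ} {R : ℝ} (hH : DifferentiableOn ℂ H (ball 0 R))
    (h : ∀ j : ℕ, 1 ≤ j → co H j = 0) : ∀ z ∈ ball (0 : ℂ) R, H z = H 0 := by
  intro z hz
  have h1 := Complex.hasSum_taylorSeries_on_ball hH hz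
  have h2 : ∀ n : ℕ, n ≠ 0 →
      ((n.factorial : ℂ)⁻¹ • (z - 0) ^ n • iteratedDeriv n H 0) = 0 := by
    intro n hn
    have h3 := h n (by omega)
    unfold co at h3
    rw [smul_eq_mul, smul_eq_mul, mul_left_comm, h3, mul_zero]
  have h4 := hasSum_single (f := fun n : ℕ =>
    ((n.factorial : ℂ)⁻¹ • (z - 0) ^ n • iteratedDeriv n H 0)) 0 h2
  have h5 := h1.unique h4
  simpa using h5

lemma zero_of_co {H : ℂ → ℂ} {R : ℝ} (hH : DifferentiableOn ℂ H (ball 0 R))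
    (h : ∀ j : ℕ, co H j = 0) : ∀ z ∈ ball (0 : ℂ) R, H z = 0 := by
  intro z hz
  rw [const_of_co hH (fun j _ => h j) z hz, ← co_zero H, h 0]

/-- Division by `z`. -/
lemma exists_factor {f : ℂ → ℂ} (hf : DifferentiableOn ℂ f (ball 0 1)) (h0 : f 0 = 0) :
    ∃ g : ℂ → ℂ, DifferentiableOn ℂ g (ball 0 1) ∧ (∀ z, f z = z * g z) ∧ g 0 = deriv f 0 := by
  refine ⟨dslope f 0, ?_, ?_, ?_⟩
  · exact (Complex.differentiableOn_dslope (ball_mem_nhds 0 one_pos)).2 hf
  · intro z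
    have := sub_smul_dslope f 0 z
    rw [h0] at this
    simpa using this.symm
  · simp

lemma integrable_aux {f : ℂ → ℂ} (hf : DifferentiableOn ℂ f (ball 0 1)) {ρ : ℝ} (hρ : 0 < ρ)
    (hρ1 : ρ < 1) (m : ℤ) :
    CircleIntegrable (fun z => f z * ((1 + z) ^ 2 * z ^ m)) 0 ρ ∧
    CircleIntegrable (fun z => conj (f z) * ((1 + z) ^ 2 * z ^ m)) 0 ρ := by
  have h1 : ContinuousOn f (sphere 0 ρ) :=
    hf.continuousOn.mono (sphere_subset_closedBall.trans (closedBall_subset_ball hρ1))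
  have h2 : ContinuousOn (fun z : ℂ => (1 + z) ^ 2 * z ^ m) (sphere 0 ρ) := by
    refine ContinuousOn.mul (by fun_prop) ?_
    refine ContinuousOn.zpow₀ continuousOn_id m ?_
    intro ζ hζ
    exact Or.inl (ne_zero_of_sphere hρ hζ)
  constructor
  · exact (h1.mul h2).circleIntegrable hρ.le
  · have h3 : ContinuousOn (fun z => conj (f z)) (sphere 0 ρ) :=
      Complex.continuous_conj.comp_continuousOn h1
    exact (h3.mul h2).circleIntegrable hρ.le

/-- Elementary limit used several times. -/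
lemma eq_zero_of_bound {x : ℂ} {F : ℝ → ℝ} (hF : Tendsto F (𝓝[<] 1) (𝓝 0))
    (h : ∀ ρ ∈ Ioo (0 : ℝ) 1, ‖x‖ ≤ F ρ) : x = 0 := by
  have h1 : ‖x‖ ≤ 0 := by
    refine ge_of_tendsto hF ?_
    filter_upwards [Ioo_mem_nhdsLT (zero_lt_one' ℝ)] with ρ hρ
    exact h ρ hρ
  exact norm_le_zero_iff.1 h1

lemma slice_zero {a0 : ℂ → ℂ} (ha : DifferentiableOn ℂ a0 (ball 0 1)) (h0 : a0 0 = 0)
    (h1 : deriv a0 0 = 0) {C : ℝ} (hC : 0 ≤ C)
    (hb : ∀ z ∈ ball (0 : ℂ) 1, |(conj z * a0 z).re| * ‖1 + z‖ ^ 2 ≤ C * (‖z‖ ^ 2 * (1 - ‖z‖ ^ 2))) :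
    ∀ z ∈ ball (0 : ℂ) 1, a0 z = 0 := by
  obtain ⟨α, hα, hα1, hα2⟩ := exists_factor ha h0
  obtain ⟨β, hβ, hβ1, hβ2⟩ := exists_factor hα (by rw [hα2, h1])
  -- the bound on `Re α`
  have hre : ∀ z ∈ ball (0 : ℂ) 1, |(α z).re| * ‖1 + z‖ ^ 2 ≤ C * (1 - ‖z‖ ^ 2) := by
    intro z hz
    have hz1 : ‖z‖ < 1 := by simpa using hz
    by_cases hz0 : z = 0
    · subst hz0
      have : α 0 = 0 := by rw [hα2, h1]
      rw [this]; simp; exact hC
    · have h2 := hb z hz
      have h3 : conj z * a0 z = ((‖z‖ ^ 2 : ℝ) : ℂ) * α z := by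
        rw [hα1 z, ← mul_assoc, mul_comm (conj z) z, Complex.mul_conj, Complex.normSq_eq_norm_sq]
      rw [h3, Complex.re_ofReal_mul, abs_mul, abs_of_nonneg (by positivity)] at h2
      have hpos : 0 < ‖z‖ ^ 2 := by positivity
      have h4 : ‖z‖ ^ 2 * (|(α z).re| * ‖1 + z‖ ^ 2) ≤ ‖z‖ ^ 2 * (C * (1 - ‖z‖ ^ 2)) := by
        calc _ = ‖z‖ ^ 2 * |(α z).re| * ‖1 + z‖ ^ 2 := by ring
          _ ≤ C * (‖z‖ ^ 2 * (1 - ‖z‖ ^ 2)) := h2
          _ = _ := by ring
      exact le_of_mul_le_mul_left h4 hpos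
  set H : ℂ → ℂ := fun z => β z * (1 + z) ^ 2 with hH
  have hHd : DifferentiableOn ℂ H (ball 0 1) := hβ.mul (by fun_prop)
  have hco : ∀ j : ℕ, 1 ≤ j → co H j = 0 := by
    intro j hj
    refine eq_zero_of_bound (F := fun ρ => 2 * (C * (1 - ρ ^ 2)) / ρ ^ (j + 1)) ?_ ?_
    · have h5 : Tendsto (fun ρ : ℝ => 2 * (C * (1 - ρ ^ 2)) / ρ ^ (j + 1)) (𝓝 1)
          (𝓝 (2 * (C * (1 - 1 ^ 2)) / 1 ^ (j + 1))) := by
        apply ContinuousAt.tendsto
        refine ContinuousAt.div (by fun_prop) (by fun_prop) (by simp)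
      have h6 : (2 * (C * (1 - 1 ^ 2)) / 1 ^ (j + 1) : ℝ) = 0 := by simp
      rw [h6] at h5
      exact h5.mono_left nhdsWithin_le_nhds
    · rintro ρ ⟨hρ0, hρ1⟩
      have e1 := circleAverage_neg_pow hHd hρ0 hρ1 j
      have e2 := conj_average hβ hρ0 hρ1 j 1 hj (by norm_num)
      have i1 := (integrable_aux hα hρ0 hρ1 (-((j + 2 - 1 : ℕ) : ℤ))).1
      have i2 := (integrable_aux hα hρ0 hρ1 (-((j + 2 - 1 : ℕ) : ℤ))).2
      have e3 : co H j = circleAverage (fun z => (α z * ((1 + z) ^ 2 * z ^ (-((j + 2 - 1 : ℕ) : ℤ))))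
          + conj (α z) * ((1 + z) ^ 2 * z ^ (-((j + 2 - 1 : ℕ) : ℤ)))) 0 ρ := by
        rw [circleAverage_fun_add i1 i2]
        have e4 : circleAverage (fun z => conj (α z) *
            ((1 + z) ^ 2 * z ^ (-((j + 2 - 1 : ℕ) : ℤ)))) 0 ρ = 0 := by
          refine Eq.trans (circleAverage_congr_sphere ?_) e2
          intro z _
          simp only
          rw [hβ1 z, pow_one]
        have e5 : circleAverage (fun z => α z * ((1 + z) ^ 2 * z ^ (-((j + 2 - 1 : ℕ) : ℤ)))) 0 ρ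
            = co H j := by
          rw [← e1]
          apply circleAverage_congr_sphere
          intro z hz
          rw [abs_of_pos hρ0] at hz
          have hz0 := ne_zero_of_sphere hρ0 hz
          simp only [hH]
          rw [hβ1 z]
          have : z ^ (-((j : ℕ) : ℤ)) = z * z ^ (-((j + 2 - 1 : ℕ) : ℤ)) := by
            rw [zpow_neg, zpow_neg, zpow_natCast, zpow_natCast]
            have : j + 2 - 1 = j + 1 := by omega
            rw [this, pow_succ]
            field_simp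
          rw [this]; ring
        rw [e4, e5, add_zero]
      rw [e3]
      apply norm_circleAverage_le hρ0.le
      intro z hz
      have hzn := norm_of_sphere hz
      have hzb : z ∈ ball (0 : ℂ) 1 := by simp [hzn, hρ1]
      rw [← add_mul, Complex.add_conj, norm_mul, norm_mul, norm_pow, norm_zpow, Complex.norm_real,
        Real.norm_eq_abs, abs_mul, abs_two, hzn]
      have h7 := hre z hzb
      rw [hzn] at h7
      have h8 : j + 2 - 1 = j + 1 := by omega
      rw [h8, zpow_neg, zpow_natCast, div_eq_mul_inv]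
      have : 2 * |(α z).re| * (‖1 + z‖ ^ 2 * (ρ ^ (j + 1))⁻¹) =
        2 * (|(α z).re| * ‖1 + z‖ ^ 2) * (ρ ^ (j + 1))⁻¹ := by ring
      rw [this]
      gcongr
  have hconst := const_of_co hHd hco
  set A : ℂ := H 0 with hA
  -- now `α z (1+z)^2 = A z`
  have hαA : ∀ z ∈ ball (0 : ℂ) 1, α z * (1 + z) ^ 2 = z * A := by
    intro z hz
    rw [← hconst z hz, hβ1 z, hH]; ring
  have hkey : ∀ z ∈ ball (0 : ℂ) 1, |(z * A * conj (1 + z) ^ 2).re| ≤
      C * (1 - ‖z‖ ^ 2) * ‖1 + z‖ ^ 2 := by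
    intro z hz
    have h2 := hre z hz
    rw [← hαA z hz]
    have h3 : α z * (1 + z) ^ 2 * conj (1 + z) ^ 2 = ((‖1 + z‖ ^ 4 : ℝ) : ℂ) * α z := by
      have : (1 + z) ^ 2 * conj (1 + z) ^ 2 = ((‖1 + z‖ ^ 4 : ℝ) : ℂ) := by
        rw [← mul_pow, Complex.mul_conj, Complex.normSq_eq_norm_sq]
        push_cast; ring
      rw [mul_assoc, this]; ring
    rw [h3, Complex.re_ofReal_mul, abs_mul, abs_of_nonneg (by positivity)]
    calc ‖1 + z‖ ^ 4 * |(α z).re| = (|(α z).re| * ‖1 + z‖ ^ 2) * ‖1 + z‖ ^ 2 := by ring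
      _ ≤ C * (1 - ‖z‖ ^ 2) * ‖1 + z‖ ^ 2 := by gcongr
  -- first direction
  have hAre : A.re = 0 := by
    by_contra hne
    have hpos : 0 < |A.re| := abs_pos.2 hne
    set s : ℝ := min (1 / 2) (|A.re| / (8 * (C + 1))) with hs
    have hs0 : 0 < s := by positivity
    have hs1 : s ≤ 1 / 2 := min_le_left _ _
    have hs2 : s ≤ |A.re| / (8 * (C + 1)) := min_le_right _ _
    have hz : ((-1 + s : ℝ) : ℂ) ∈ ball (0 : ℂ) 1 := by
      rw [mem_ball_zero_iff, Complex.norm_real, Real.norm_eq_abs, abs_lt]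
      constructor <;> linarith
    have h2 := hkey _ hz
    have h3 : (1 : ℂ) + ((-1 + s : ℝ) : ℂ) = (s : ℂ) := by push_cast; ring
    rw [h3, Complex.conj_ofReal, Complex.norm_real, Complex.norm_real, Real.norm_eq_abs,
      Real.norm_eq_abs, sq_abs, sq_abs] at h2
    have h4 : (((-1 + s : ℝ) : ℂ) * A * (s : ℂ) ^ 2).re = (-1 + s) * s ^ 2 * A.re := by
      have : ((-1 + s : ℝ) : ℂ) * A * (s : ℂ) ^ 2 = (((-1 + s) * s ^ 2 : ℝ) : ℂ) * A := by
        push_cast; ring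
      rw [this, Complex.re_ofReal_mul]
    rw [h4, abs_mul, abs_mul, abs_of_nonneg (sq_nonneg s), abs_of_neg (by linarith)] at h2
    have h5 : (1 - s) * |A.re| ≤ C * (1 - (-1 + s) ^ 2) := by
      have : 0 < s ^ 2 := by positivity
      nlinarith
    have h6 : s * (8 * (C + 1)) ≤ |A.re| := by
      rwa [le_div_iff₀ (by positivity)] at hs2
    nlinarith
  have hAim : A.im = 0 := by
    by_contra hne
    have hpos : 0 < |A.im| := abs_pos.2 hne
    set s : ℝ := min (1 / 2) (|A.im| / (8 * (C + 1))) with hs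
    have hs0 : 0 < s := by positivity
    have hs1 : s ≤ 1 / 2 := min_le_left _ _
    have hs2 : s ≤ |A.im| / (8 * (C + 1)) := min_le_right _ _
    set z : ℂ := ⟨-1 + s, s⟩ with hzdef
    have hn : ‖z‖ ^ 2 = 1 - 2 * s + 2 * s ^ 2 := by
      rw [← Complex.normSq_eq_norm_sq, Complex.normSq_apply]; simp [hzdef]; ring
    have hz : z ∈ ball (0 : ℂ) 1 := by
      rw [mem_ball_zero_iff]
      have : ‖z‖ ^ 2 < 1 := by rw [hn]; nlinarith
      nlinarith [norm_nonneg z]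
    have h2 := hkey _ hz
    have h3 : (1 : ℂ) + z = ⟨s, s⟩ := by apply Complex.ext <;> simp [hzdef]
    have h4 : ‖(1 : ℂ) + z‖ ^ 2 = 2 * s ^ 2 := by
      rw [h3, ← Complex.normSq_eq_norm_sq, Complex.normSq_apply]; ring
    have h5 : (z * A * conj (1 + z) ^ 2).re = 2 * s ^ 2 * (s * A.re + (-1 + s) * A.im) := by
      rw [h3]
      simp [hzdef, pow_two, Complex.mul_re, Complex.mul_im]
      ring
    rw [h5, h4, hn, hAre, mul_zero, zero_add, abs_mul, abs_mul (-1 + s),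
      abs_of_nonneg (by positivity), abs_of_neg (by linarith : (-1 + s) < 0)] at h2
    have h6 : (1 - s) * |A.im| ≤ C * (1 - (1 - 2 * s + 2 * s ^ 2)) := by
      have : 0 < 2 * s ^ 2 := by positivity
      nlinarith
    have h7 : s * (8 * (C + 1)) ≤ |A.im| := by
      rwa [le_div_iff₀ (by positivity)] at hs2
    nlinarith
  have hA0 : A = 0 := Complex.ext hAre hAim
  intro z hz
  have hz1 : ‖z‖ < 1 := by simpa using hz
  have h9 := hαA z hz
  rw [hA0, mul_zero] at h9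
  have h10 : (1 + z) ≠ 0 := by
    intro h
    have : z = -1 := by linear_combination h
    rw [this] at hz1; simp at hz1
  have h11 : α z = 0 := by
    rcases mul_eq_zero.1 h9 with h | h
    · exact h
    · exact absurd h (pow_ne_zero 2 h10)
  rw [hα1 z, h11, mul_zero]

end Pool.Agent.Helper64.SP
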